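import Pool.Agent.MRec.MainEst

set_option autoImplicit false
set_option linter.unusedSectionVars false
set_option linter.unusedSimpArgs false
set_option linter.unusedVariables false

open MeasureTheory Filter Topology
open scoped ENNReal

namespace Pool.Agent.MRec

variable {Ω : Type*} [MeasurableSpace Ω] {ν : Measure Ω} [IsProbabilityMeasure ν]

/-- The main estimate. -/
theorem main_est {B P : Ω → Ω} (hB : MeasurePreserving B ν ν) (hP : MeasurePreserving P ν ν)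
    (hcomm : ∀ x, B (P x) = P (B x)) {f c g : Ω → ℝ} (hf : Measurable f) (hf0 : ∀ x, 0 ≤ f x)
    (hf1 : ∀ x, f x ≤ 1) (hc : Measurable c) (hc0 : ∀ x, 0 ≤ c x) (hc1 : ∀ x, c x ≤ 1)
    (hg : Measurable g) (hg1 : ∀ x, |g x| ≤ 1) (hfcg : ∀ x, f x = c x + g x)
    {S₁ S₂ : Ω → Ω} (hS₁ : Measurable S₁)
    (hS₂ : Measurable S₂) {w : ℕ → ℝ} {W : ℝ} (hw0 : ∀ n, 0 ≤ w n) (hw : ∀ n, w n ≤ W)
    (ε₁ : ℝ) (hε₁ : 0 ≤ ε₁)
    (h1B : ∀ n, w n ≠ 0 → ∫ x, |c (B^[n] x) - c x| ∂ν ≤ ε₁)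
    (h1P : ∀ n, w n ≠ 0 → ∫ x, |c (P^[n] x) - c x| ∂ν ≤ ε₁)
    (h2 : ∃ N₀ : ℕ, ∀ N ≥ N₀, ∀ s : ℕ, (N : ℝ)⁻¹ * ∑ n ∈ Finset.range N, w (s + n) ≤ 2)
    {M₁ M₂ : Ω → ℝ} (hM₁ : Measurable M₁) (hM₁0 : ∀ x, 0 ≤ M₁ x) (hM₁1 : ∀ x, M₁ x ≤ 1)
    (hM₂ : Measurable M₂) (hM₂0 : ∀ x, 0 ≤ M₂ x) (hM₂1 : ∀ x, M₂ x ≤ 1)
    (h31 : ∀ ε > 0, ∃ N₀ : ℕ, ∀ N ≥ N₀, ∀ s : ℕ, ∫ x, |(N : ℝ)⁻¹ * ∑ n ∈ Finset.range N,
        w (s + n) * f (S₁^[s + n] x) - M₁ x| ∂ν ≤ ε)
    (h32 : ∀ ε > 0, ∃ N₀ : ℕ, ∀ N ≥ N₀, ∀ s : ℕ, ∫ x, |(N : ℝ)⁻¹ * ∑ n ∈ Finset.range N,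
        w (s + n) * f (S₂^[s + n] x) - M₂ x| ∂ν ≤ ε)
    (h4 : Tendsto (fun H : ℕ => (H : ℝ)⁻¹ * ∑ h ∈ Finset.range H,
      |∫ x, g (B^[h] x) * g x ∂ν|) atTop (𝓝 0))
    (h5 : ∀ h : ℕ, ∀ ε > 0, ∃ N₀ : ℕ, ∀ N ≥ N₀,
      ∫ x, |corr B P g N h x - ∫ y, g (B^[h] y) * g y ∂ν| ∂ν ≤ ε)
    (hpos : 8 * ε₁ < ∫ x, f x * c x * M₁ x * M₂ x ∂ν) :
    ∀ N₁ : ℕ, ∃ N ≥ N₁, 0 < N ∧ ∀ s s' : ℕ, ∃ i < N, ∃ j < N,
      ∫ x, f x * f (B^[s + i] (P^[s' + j] x)) * f (S₁^[s + i] x) * f (S₂^[s' + j] x) ∂ν ≠ 0 := by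
  intro N₁
  have hW : 0 ≤ W := (hw0 0).trans (hw 0)
  have hfa : ∀ x, |f x| ≤ 1 := fun x => by rw [abs_of_nonneg (hf0 x)]; exact hf1 x
  have hwa : ∀ n, |w n| ≤ W := fun n => by rw [abs_of_nonneg (hw0 n)]; exact hw n
  set κ := ∫ x, f x * c x * M₁ x * M₂ x ∂ν with hκ
  set τ := (κ - 8 * ε₁) / 4 with hτ
  have hτ0 : 0 < τ := by rw [hτ]; linarith
  obtain ⟨Na, hNa⟩ := h31 (τ / (W + 1)) (by positivity)
  obtain ⟨Nb, hNb⟩ := h32 τ hτ0
  obtain ⟨Nc, hNc⟩ := h2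
  obtain ⟨H, hH, L₀, hL₀⟩ := term3 hB hP hcomm hf hfa hg hg1 hS₁ hS₂ hwa h4 h5 τ hτ0
  set L := L₀ + N₁ + Na + Nb + Nc + 1 with hL
  have hNL : L ≤ H * L := Nat.le_mul_of_pos_left L hH
  set N := H * L with hN
  have hN0 : 0 < N := by omega
  have hNr : (0 : ℝ) < N := by exact_mod_cast hN0
  refine ⟨N, by omega, hN0, fun s s' => ?_⟩
  by_contra hcon
  push Not at hcon
  have e3 := hL₀ L (by omega) s s'
  rw [← hN] at e3
  have ea := hNa N (by omega) s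
  have eb := hNb N (by omega) s'
  have ec := hNc N (by omega) s
  have ec' := hNc N (by omega) s'
  -- notation
  set A₁ : Ω → ℝ := fun x => (N : ℝ)⁻¹ * ∑ n ∈ Finset.range N, w (s + n) * f (S₁^[s + n] x)
    with hA₁
  set A₂ : Ω → ℝ := fun x => (N : ℝ)⁻¹ * ∑ n ∈ Finset.range N, w (s' + n) * f (S₂^[s' + n] x)
    with hA₂
  have hfS₁ : ∀ n, Measurable fun x => f (S₁^[n] x) := fun n => hf.comp (hS₁.iterate n)
  have hfS₂ : ∀ n, Measurable fun x => f (S₂^[n] x) := fun n => hf.comp (hS₂.iterate n)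
  have hBP : ∀ m n, Measurable fun x => B^[m] (P^[n] x) := fun m n =>
    (hB.measurable.iterate m).comp (hP.measurable.iterate n)
  have hA₁m : Measurable A₁ := by
    apply Measurable.const_mul
    exact Finset.measurable_sum _ fun n _ => (hfS₁ _).const_mul _
  have hA₂m : Measurable A₂ := by
    apply Measurable.const_mul
    exact Finset.measurable_sum _ fun n _ => (hfS₂ _).const_mul _
  have hA₁0 : ∀ x, 0 ≤ A₁ x := fun x => mul_nonneg (by positivity)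
    (Finset.sum_nonneg fun n _ => mul_nonneg (hw0 _) (hf0 _))
  have hA₂0 : ∀ x, 0 ≤ A₂ x := fun x => mul_nonneg (by positivity)
    (Finset.sum_nonneg fun n _ => mul_nonneg (hw0 _) (hf0 _))
  have hA₁W : ∀ x, |A₁ x| ≤ W := by
    intro x
    apply abs_avg_le N _ W hW
    intro n
    rw [abs_mul]
    calc |w (s + n)| * |f (S₁^[s + n] x)| ≤ W * 1 := by gcongr; exacts [hwa _, hfa _]
      _ = W := mul_one _
  have hA₂W : ∀ x, |A₂ x| ≤ W := by
    intro x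
    apply abs_avg_le N _ W hW
    intro n
    rw [abs_mul]
    calc |w (s' + n)| * |f (S₂^[s' + n] x)| ≤ W * 1 := by gcongr; exacts [hwa _, hfa _]
      _ = W := mul_one _
  -- the functions
  set F : ℕ → ℕ → Ω → ℝ := fun i j x => f x * f (B^[s + i] (P^[s' + j] x)) * f (S₁^[s + i] x)
    * f (S₂^[s' + j] x) with hF
  set F₂ : ℕ → ℕ → Ω → ℝ := fun i j x => (w (s + i) * w (s' + j)) *
    (f x * (c (B^[s + i] (P^[s' + j] x)) - c x) * f (S₁^[s + i] x) * f (S₂^[s' + j] x)) with hF₂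
  set F₃ : ℕ → ℕ → Ω → ℝ := fun i j x => (w (s + i) * w (s' + j)) *
    (f x * g (B^[s + i] (P^[s' + j] x)) * f (S₁^[s + i] x) * f (S₂^[s' + j] x)) with hF₃
  have hFm : ∀ i j, Measurable (F i j) := fun i j =>
    ((hf.mul (hf.comp (hBP _ _))).mul (hfS₁ _)).mul (hfS₂ _)
  have hF₂m : ∀ i j, Measurable (F₂ i j) := fun i j =>
    (((hf.mul ((hc.comp (hBP _ _)).sub hc)).mul (hfS₁ _)).mul (hfS₂ _)).const_mul _
  have hF₃m : ∀ i j, Measurable (F₃ i j) := fun i j =>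
    (((hf.mul (hg.comp (hBP _ _))).mul (hfS₁ _)).mul (hfS₂ _)).const_mul _
  have hF1 : ∀ i j x, |F i j x| ≤ 1 := by
    intro i j x
    simp only [hF, abs_mul]
    calc |f x| * |f (B^[s + i] (P^[s' + j] x))| * |f (S₁^[s + i] x)| * |f (S₂^[s' + j] x)|
        ≤ 1 * 1 * 1 * 1 := by gcongr <;> exact hfa _
      _ = 1 := by norm_num
  have hcd : ∀ x y, |c x - c y| ≤ 1 := by
    intro x y
    rw [abs_le]; constructor
    · linarith [hc0 x, hc1 y]
    · linarith [hc1 x, hc0 y]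
  have hF₂1 : ∀ i j x, |F₂ i j x| ≤ (w (s + i) * w (s' + j)) *
      |c (B^[s + i] (P^[s' + j] x)) - c x| := by
    intro i j x
    simp only [hF₂, abs_mul, abs_of_nonneg (hw0 _)]
    have a1 := hfa x
    have a2 := hfa (S₁^[s + i] x)
    have a3 := hfa (S₂^[s' + j] x)
    have a4 := hw0 (s + i)
    have a5 := hw0 (s' + j)
    gcongr
    calc |f x| * |c (B^[s + i] (P^[s' + j] x)) - c x| * |f (S₁^[s + i] x)| * |f (S₂^[s' + j] x)|
        ≤ 1 * |c (B^[s + i] (P^[s' + j] x)) - c x| * 1 * 1 := by gcongr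
      _ = _ := by ring
  have hF₂W : ∀ i j x, |F₂ i j x| ≤ W * W := by
    intro i j x
    refine (hF₂1 i j x).trans ?_
    calc (w (s + i) * w (s' + j)) * |c (B^[s + i] (P^[s' + j] x)) - c x|
        ≤ (W * W) * 1 := by
          gcongr
          exacts [hw0 _, hw _, hw _, hcd _ _]
      _ = W * W := mul_one _
  have hF₃W : ∀ i j x, |F₃ i j x| ≤ W * W := by
    intro i j x
    simp only [hF₃, abs_mul, abs_of_nonneg (hw0 _)]
    have a1 := hfa x
    have a2 := hfa (S₁^[s + i] x)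
    have a3 := hfa (S₂^[s' + j] x)
    have a4 := hw0 (s + i)
    have a5 := hw0 (s' + j)
    have a6 := hw (s + i)
    have a7 := hw (s' + j)
    have a8 := hg1 (B^[s + i] (P^[s' + j] x))
    calc (w (s + i) * w (s' + j)) * (|f x| * |g (B^[s + i] (P^[s' + j] x))| * |f (S₁^[s + i] x)|
          * |f (S₂^[s' + j] x)|)
        ≤ (W * W) * (1 * 1 * 1 * 1) := by gcongr
      _ = _ := by ring
  have hFi : ∀ i j, Integrable (F i j) ν := fun i j => int_of_bdd (hFm i j) 1 (hF1 i j)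
  have hF₂i : ∀ i j, Integrable (F₂ i j) ν := fun i j => int_of_bdd (hF₂m i j) _ (hF₂W i j)
  have hF₃i : ∀ i j, Integrable (F₃ i j) ν := fun i j => int_of_bdd (hF₃m i j) _ (hF₃W i j)
  set Φ₂ : Ω → ℝ := fun x => (N : ℝ)⁻¹ * ∑ j ∈ Finset.range N, (N : ℝ)⁻¹ *
    ∑ i ∈ Finset.range N, F₂ i j x with hΦ₂
  set Φ₃ : Ω → ℝ := fun x => (N : ℝ)⁻¹ * ∑ j ∈ Finset.range N, (N : ℝ)⁻¹ *
    ∑ i ∈ Finset.range N, F₃ i j x with hΦ₃
  set Ψ : Ω → ℝ := fun x => (N : ℝ)⁻¹ * ∑ j ∈ Finset.range N, (N : ℝ)⁻¹ *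
    ∑ i ∈ Finset.range N, (w (s + i) * w (s' + j)) * F i j x with hΨ
  have hΦ₂i : Integrable Φ₂ ν := (integrable_finsetSum _ fun j _ =>
    (integrable_finsetSum _ fun i _ => hF₂i i j).const_mul _).const_mul _
  have hΦ₃i : Integrable Φ₃ ν := (integrable_finsetSum _ fun j _ =>
    (integrable_finsetSum _ fun i _ => hF₃i i j).const_mul _).const_mul _
  have hΨi : Integrable Ψ ν := (integrable_finsetSum _ fun j _ =>
    (integrable_finsetSum _ fun i _ => (hFi i j).const_mul _).const_mul _).const_mul _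
  -- `∫ Ψ = 0`
  have hΨ0 : ∫ x, Ψ x ∂ν = 0 := by
    simp only [hΨ]
    rw [integral_const_mul, integral_finsetSum _ fun j _ =>
      (integrable_finsetSum _ fun i _ => (hFi i j).const_mul _).const_mul _]
    have : ∀ j ∈ Finset.range N, ∫ x, (N : ℝ)⁻¹ * ∑ i ∈ Finset.range N,
        (w (s + i) * w (s' + j)) * F i j x ∂ν = 0 := by
      intro j hj
      rw [integral_const_mul, integral_finsetSum _ fun i _ => (hFi i j).const_mul _]
      have h3 : ∀ i ∈ Finset.range N, ∫ x, (w (s + i) * w (s' + j)) * F i j x ∂ν = 0 := by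
        intro i hi
        rw [integral_const_mul]
        have h6 := hcon i (Finset.mem_range.1 hi) j (Finset.mem_range.1 hj)
        rw [show (∫ x, F i j x ∂ν) = 0 from h6, mul_zero]
      rw [Finset.sum_eq_zero h3, mul_zero]
    rw [Finset.sum_eq_zero this, mul_zero]
  -- decomposition
  have hdec : ∀ x, Ψ x = f x * c x * A₁ x * A₂ x + Φ₂ x + Φ₃ x := by
    intro x
    have h6 : f x * c x * A₁ x * A₂ x = (N : ℝ)⁻¹ * ∑ j ∈ Finset.range N, (N : ℝ)⁻¹ *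
        ∑ i ∈ Finset.range N, (w (s + i) * w (s' + j)) * (f x * c x * f (S₁^[s + i] x)
          * f (S₂^[s' + j] x)) := by
      simp only [hA₁, hA₂]
      rw [← Finset.mul_sum]
      have h7 : (∑ n ∈ Finset.range N, w (s + n) * f (S₁^[s + n] x)) *
          (∑ n ∈ Finset.range N, w (s' + n) * f (S₂^[s' + n] x))
          = ∑ j ∈ Finset.range N, ∑ i ∈ Finset.range N, (w (s + i) * f (S₁^[s + i] x)) *
            (w (s' + j) * f (S₂^[s' + j] x)) := by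
        rw [Finset.sum_mul_sum, Finset.sum_comm]
      have h8 : ∑ j ∈ Finset.range N, ∑ i ∈ Finset.range N, (w (s + i) * w (s' + j)) *
          (f x * c x * f (S₁^[s + i] x) * f (S₂^[s' + j] x))
          = (f x * c x) * ∑ j ∈ Finset.range N, ∑ i ∈ Finset.range N,
            (w (s + i) * f (S₁^[s + i] x)) * (w (s' + j) * f (S₂^[s' + j] x)) := by
        simp only [Finset.mul_sum]
        apply Finset.sum_congr rfl; intro j _
        apply Finset.sum_congr rfl; intro i _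
        ring
      rw [h8, ← h7]
      ring
    rw [h6]
    simp only [hΨ, hΦ₂, hΦ₃]
    rw [← mul_add, ← mul_add, ← Finset.sum_add_distrib, ← Finset.sum_add_distrib]
    congr 1
    apply Finset.sum_congr rfl; intro j _
    rw [← mul_add, ← mul_add, ← Finset.sum_add_distrib, ← Finset.sum_add_distrib]
    congr 1
    apply Finset.sum_congr rfl; intro i _
    simp only [hF, hF₂, hF₃]
    rw [hfcg (B^[s + i] (P^[s' + j] x))]
    ring
  -- bound of `∫ |Φ₂|`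
  have hΦ₂b : ∫ x, |Φ₂ x| ∂ν ≤ 8 * ε₁ := by
    have hcint : ∀ i j, Integrable (fun x => |c (B^[s + i] (P^[s' + j] x)) - c x|) ν := by
      intro i j
      apply int_of_bdd ((hc.comp (hBP _ _)).sub hc).abs 1
      intro x
      simp only [abs_abs, Pi.sub_apply, Function.comp]
      exact hcd _ _
    have hterm : ∀ i j, (w (s + i) * w (s' + j)) *
        ∫ x, |c (B^[s + i] (P^[s' + j] x)) - c x| ∂ν ≤ (w (s + i) * w (s' + j)) * (2 * ε₁) := by
      intro i j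
      by_cases hi : w (s + i) = 0
      · rw [hi]; simp
      by_cases hj : w (s' + j) = 0
      · rw [hj]; simp
      gcongr
      · exact mul_nonneg (hw0 _) (hw0 _)
      have b1 := h1B _ hi
      have b2 := h1P _ hj
      have b3 : ∫ x, |c (B^[s + i] (P^[s' + j] x)) - c (P^[s' + j] x)| ∂ν
          = ∫ x, |c (B^[s + i] x) - c x| ∂ν :=
        integral_comp_mp (hP.iterate (s' + j)) (F := fun x => |c (B^[s + i] x) - c x|)
          ((hc.comp (hB.measurable.iterate _)).sub hc).abs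
      have b4 : ∀ x, |c (B^[s + i] (P^[s' + j] x)) - c x|
          ≤ |c (B^[s + i] (P^[s' + j] x)) - c (P^[s' + j] x)| + |c (P^[s' + j] x) - c x| :=
        fun x => abs_sub_le _ _ _
      have b5 : Integrable (fun x => |c (B^[s + i] (P^[s' + j] x)) - c (P^[s' + j] x)|) ν := by
        apply int_of_bdd ((hc.comp (hBP _ _)).sub (hc.comp (hP.measurable.iterate _))).abs 1
        intro x
        simp only [abs_abs, Pi.sub_apply, Function.comp]
        exact hcd _ _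
      have b6 : Integrable (fun x => |c (P^[s' + j] x) - c x|) ν := by
        apply int_of_bdd ((hc.comp (hP.measurable.iterate _)).sub hc).abs 1
        intro x
        simp only [abs_abs, Pi.sub_apply, Function.comp]
        exact hcd _ _
      calc ∫ x, |c (B^[s + i] (P^[s' + j] x)) - c x| ∂ν
          ≤ ∫ x, (|c (B^[s + i] (P^[s' + j] x)) - c (P^[s' + j] x)| + |c (P^[s' + j] x) - c x|) ∂ν :=
            integral_mono (hcint i j) (b5.add b6) b4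
        _ = _ + _ := integral_add b5 b6
        _ ≤ ε₁ + ε₁ := by rw [b3]; gcongr
        _ = 2 * ε₁ := by ring
    have hpt : ∀ x, |Φ₂ x| ≤ (N : ℝ)⁻¹ * ∑ j ∈ Finset.range N, (N : ℝ)⁻¹ *
        ∑ i ∈ Finset.range N, (w (s + i) * w (s' + j)) *
          |c (B^[s + i] (P^[s' + j] x)) - c x| := by
      intro x
      simp only [hΦ₂]
      rw [abs_mul, abs_of_nonneg (show (0 : ℝ) ≤ (N : ℝ)⁻¹ by positivity)]
      gcongr
      refine (Finset.abs_sum_le_sum_abs _ _).trans ?_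
      apply Finset.sum_le_sum; intro j _
      rw [abs_mul, abs_of_nonneg (show (0 : ℝ) ≤ (N : ℝ)⁻¹ by positivity)]
      gcongr
      refine (Finset.abs_sum_le_sum_abs _ _).trans ?_
      apply Finset.sum_le_sum; intro i _
      exact hF₂1 i j x
    have hRi : Integrable (fun x => (N : ℝ)⁻¹ * ∑ j ∈ Finset.range N, (N : ℝ)⁻¹ *
        ∑ i ∈ Finset.range N, (w (s + i) * w (s' + j)) *
          |c (B^[s + i] (P^[s' + j] x)) - c x|) ν := (integrable_finsetSum _ fun j _ =>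
      (integrable_finsetSum _ fun i _ => (hcint i j).const_mul _).const_mul _).const_mul _
    refine (integral_mono hΦ₂i.abs hRi hpt).trans ?_
    rw [integral_const_mul, integral_finsetSum _ fun j _ =>
      (integrable_finsetSum _ fun i _ => (hcint i j).const_mul _).const_mul _]
    calc (N : ℝ)⁻¹ * ∑ j ∈ Finset.range N, ∫ x, (N : ℝ)⁻¹ * ∑ i ∈ Finset.range N,
          (w (s + i) * w (s' + j)) * |c (B^[s + i] (P^[s' + j] x)) - c x| ∂ν
        ≤ (N : ℝ)⁻¹ * ∑ j ∈ Finset.range N, (N : ℝ)⁻¹ * ∑ i ∈ Finset.range N,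
          (w (s + i) * w (s' + j)) * (2 * ε₁) := by
          gcongr with j _
          rw [integral_const_mul, integral_finsetSum _ fun i _ => (hcint i j).const_mul _]
          gcongr with i _
          rw [integral_const_mul]
          exact hterm i j
      _ = ((N : ℝ)⁻¹ * ∑ i ∈ Finset.range N, w (s + i)) *
          ((N : ℝ)⁻¹ * ∑ j ∈ Finset.range N, w (s' + j)) * (2 * ε₁) := by
          have h7 : (∑ n ∈ Finset.range N, w (s + n)) * (∑ n ∈ Finset.range N, w (s' + n))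
              = ∑ j ∈ Finset.range N, ∑ i ∈ Finset.range N, w (s + i) * w (s' + j) := by
            rw [Finset.sum_mul_sum, Finset.sum_comm]
          have h8 : ∑ j ∈ Finset.range N, (N : ℝ)⁻¹ * ∑ i ∈ Finset.range N,
              (w (s + i) * w (s' + j)) * (2 * ε₁)
              = (N : ℝ)⁻¹ * ((∑ j ∈ Finset.range N, ∑ i ∈ Finset.range N,
                w (s + i) * w (s' + j)) * (2 * ε₁)) := by
            rw [← Finset.mul_sum, Finset.sum_mul]
            congr 1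
            apply Finset.sum_congr rfl; intro j _
            rw [Finset.sum_mul]
          rw [h8, ← h7]
          ring
      _ ≤ 2 * 2 * (2 * ε₁) := by
          have hn : 0 ≤ (N : ℝ)⁻¹ * ∑ j ∈ Finset.range N, w (s' + j) :=
            mul_nonneg (by positivity) (Finset.sum_nonneg fun n _ => hw0 _)
          gcongr
      _ = 8 * ε₁ := by ring
  have hΦ₃b : ∫ x, |Φ₃ x| ∂ν ≤ τ := e3
  -- comparison with `κ`
  have hcmp : ∀ x, f x * c x * M₁ x * M₂ x ≤ f x * c x * A₁ x * A₂ x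
      + (W * |A₁ x - M₁ x| + |A₂ x - M₂ x|) := by
    intro x
    have q0 : 0 ≤ f x * c x := mul_nonneg (hf0 x) (hc0 x)
    have q1 : f x * c x ≤ 1 := mul_le_one₀ (hf1 x) (hc0 x) (hc1 x)
    have q2 : M₁ x * M₂ x - A₁ x * A₂ x = (M₁ x - A₁ x) * A₂ x + M₁ x * (M₂ x - A₂ x) := by ring
    have q3 : |M₁ x * M₂ x - A₁ x * A₂ x| ≤ W * |A₁ x - M₁ x| + |A₂ x - M₂ x| := by
      rw [q2]
      refine (abs_add_le _ _).trans ?_
      rw [abs_mul (M₁ x - A₁ x) (A₂ x), abs_mul (M₁ x) (M₂ x - A₂ x), abs_sub_comm (M₁ x),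
        abs_sub_comm (M₂ x)]
      have r1 := hA₂W x
      have r2 : |M₁ x| ≤ 1 := by rw [abs_of_nonneg (hM₁0 x)]; exact hM₁1 x
      have r3 := abs_nonneg (A₁ x - M₁ x)
      have r4 := abs_nonneg (A₂ x - M₂ x)
      nlinarith
    have q4 : f x * c x * (M₁ x * M₂ x - A₁ x * A₂ x) ≤ W * |A₁ x - M₁ x| + |A₂ x - M₂ x| := by
      calc f x * c x * (M₁ x * M₂ x - A₁ x * A₂ x)
          ≤ f x * c x * |M₁ x * M₂ x - A₁ x * A₂ x| := by gcongr; exact le_abs_self _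
        _ ≤ 1 * |M₁ x * M₂ x - A₁ x * A₂ x| := by gcongr
        _ ≤ _ := by rw [one_mul]; exact q3
    nlinarith
  have hi1 : Integrable (fun x => f x * c x * M₁ x * M₂ x) ν := by
    apply int_of_bdd (((hf.mul hc).mul hM₁).mul hM₂) 1
    intro x
    show |f x * c x * M₁ x * M₂ x| ≤ 1
    have q0 : 0 ≤ f x * c x := mul_nonneg (hf0 x) (hc0 x)
    have q1 : f x * c x ≤ 1 := mul_le_one₀ (hf1 x) (hc0 x) (hc1 x)
    have q2 : 0 ≤ f x * c x * M₁ x := mul_nonneg q0 (hM₁0 x)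
    have q3 : f x * c x * M₁ x ≤ 1 := mul_le_one₀ q1 (hM₁0 x) (hM₁1 x)
    rw [abs_of_nonneg (mul_nonneg q2 (hM₂0 x))]
    exact mul_le_one₀ q3 (hM₂0 x) (hM₂1 x)
  have hi2 : Integrable (fun x => f x * c x * A₁ x * A₂ x) ν := by
    apply int_of_bdd (((hf.mul hc).mul hA₁m).mul hA₂m) (W * W)
    intro x
    show |f x * c x * A₁ x * A₂ x| ≤ W * W
    have q0 : 0 ≤ f x * c x := mul_nonneg (hf0 x) (hc0 x)
    have q1 : f x * c x ≤ 1 := mul_le_one₀ (hf1 x) (hc0 x) (hc1 x)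
    rw [abs_mul, abs_mul, abs_of_nonneg q0]
    calc f x * c x * |A₁ x| * |A₂ x| ≤ 1 * W * W := by gcongr; exacts [hA₁W x, hA₂W x]
      _ = W * W := by ring
  have hi3 : Integrable (fun x => |A₁ x - M₁ x|) ν := by
    apply int_of_bdd (hA₁m.sub hM₁).abs (W + 1)
    intro x
    rw [abs_abs]
    refine (abs_sub _ _).trans ?_
    have r2 : |M₁ x| ≤ 1 := by rw [abs_of_nonneg (hM₁0 x)]; exact hM₁1 x
    exact add_le_add (hA₁W x) r2
  have hi4 : Integrable (fun x => |A₂ x - M₂ x|) ν := by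
    apply int_of_bdd (hA₂m.sub hM₂).abs (W + 1)
    intro x
    rw [abs_abs]
    refine (abs_sub _ _).trans ?_
    have r2 : |M₂ x| ≤ 1 := by rw [abs_of_nonneg (hM₂0 x)]; exact hM₂1 x
    exact add_le_add (hA₂W x) r2
  have hint1 : κ ≤ ∫ x, f x * c x * A₁ x * A₂ x ∂ν + (W * ∫ x, |A₁ x - M₁ x| ∂ν
      + ∫ x, |A₂ x - M₂ x| ∂ν) := by
    have z1 : ∫ x, (f x * c x * A₁ x * A₂ x + (W * |A₁ x - M₁ x| + |A₂ x - M₂ x|)) ∂ν
        = ∫ x, f x * c x * A₁ x * A₂ x ∂ν + ∫ x, (W * |A₁ x - M₁ x| + |A₂ x - M₂ x|) ∂ν :=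
      integral_add hi2 ((hi3.const_mul W).add hi4)
    have z2 : ∫ x, (W * |A₁ x - M₁ x| + |A₂ x - M₂ x|) ∂ν
        = ∫ x, W * |A₁ x - M₁ x| ∂ν + ∫ x, |A₂ x - M₂ x| ∂ν :=
      integral_add (hi3.const_mul W) hi4
    rw [← integral_const_mul, ← z2, ← z1]
    exact integral_mono hi1 (hi2.add ((hi3.const_mul W).add hi4)) hcmp
  have hint2 : ∫ x, f x * c x * A₁ x * A₂ x ∂ν ≤ 8 * ε₁ + τ := by
    have h9 : ∫ x, f x * c x * A₁ x * A₂ x ∂ν = ∫ x, Ψ x ∂ν - ∫ x, Φ₂ x ∂ν - ∫ x, Φ₃ x ∂ν := by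
      have z2 : ∫ x, (Ψ x - Φ₂ x) ∂ν = ∫ x, Ψ x ∂ν - ∫ x, Φ₂ x ∂ν := integral_sub hΨi hΦ₂i
      have z1 : ∫ x, (Ψ x - Φ₂ x - Φ₃ x) ∂ν = ∫ x, (Ψ x - Φ₂ x) ∂ν - ∫ x, Φ₃ x ∂ν :=
        integral_sub (hΨi.sub hΦ₂i) hΦ₃i
      rw [← z2, ← z1]
      apply integral_congr_ae
      refine ae_of_all _ fun x => ?_
      simp only [Pi.sub_apply]
      rw [hdec x]; ring
    rw [h9, hΨ0]
    have t1 : |∫ x, Φ₂ x ∂ν| ≤ ∫ x, |Φ₂ x| ∂ν := abs_integral_le_integral_abs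
    have t2 : |∫ x, Φ₃ x ∂ν| ≤ ∫ x, |Φ₃ x| ∂ν := abs_integral_le_integral_abs
    have t3 := neg_abs_le (∫ x, Φ₂ x ∂ν)
    have t4 := neg_abs_le (∫ x, Φ₃ x ∂ν)
    linarith
  have hWτ : W * (τ / (W + 1)) ≤ τ := by
    rw [mul_div_assoc', div_le_iff₀ (by positivity)]
    nlinarith
  have hlast : W * ∫ x, |A₁ x - M₁ x| ∂ν ≤ τ := by
    refine le_trans ?_ hWτ
    gcongr
  have hfinal : κ ≤ 8 * ε₁ + 3 * τ := by
    have : ∫ x, |A₂ x - M₂ x| ∂ν ≤ τ := eb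
    linarith
  have : κ = 8 * ε₁ + 4 * τ := by rw [hτ]; ring
  linarith

end Pool.Agent.MRec
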