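import Pool.Agent.MRec.Kernel

set_option autoImplicit false
set_option linter.unusedSectionVars false
set_option linter.unusedSimpArgs false

open MeasureTheory Filter Topology
open scoped ENNReal

namespace Pool.Agent.MRec

variable {Ω : Type*} [MeasurableSpace Ω] {ν : Measure Ω} [IsProbabilityMeasure ν]
variable {Y : Type*} [MeasurableSpace Y] {μ : Measure Y} [IsProbabilityMeasure μ]

theorem koop_koop_inv {T T' : Ω → Ω} (hT : MeasurePreserving T ν ν) (hT' : MeasurePreserving T' ν ν)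
    (h : ∀ x, T' (T x) = x) (a : Lp ℝ 2 ν) : koop T hT (koop T' hT' a) = a := by
  apply Lp.ext
  filter_upwards [koop_congr_ae (hT := hT) (coeFn_koop T' hT' a)] with x hx
  rw [hx]
  simp [Function.comp, h]

theorem koop_slice {T T' : Ω → Ω} (hT : MeasurePreserving T ν ν) (hT' : MeasurePreserving T' ν ν)
    (h : ∀ x, T' (T x) = x) (b : Lp ℝ 2 μ) (m : Lp ℝ 2 (ν.prod μ)) :
    koop T hT (slice b m) = slice b (koop (Prod.map T id) (hT.prod (MeasurePreserving.id μ)) m) := by
  apply ext_inner_right ℝ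
  intro a
  obtain ⟨a', rfl⟩ : ∃ a', a = koop T hT a' := ⟨koop T' hT' a, (koop_koop_inv hT hT' h a).symm⟩
  rw [LinearIsometry.inner_map_map, inner_slice, inner_slice]
  have h1 : tens (koop T hT a') b = koop (Prod.map T id) (hT.prod (MeasurePreserving.id μ))
      (tens a' b) := by
    rw [koop_tens T hT id (MeasurePreserving.id μ)]
    congr 1
    apply Lp.ext
    filter_upwards [coeFn_koop id (MeasurePreserving.id μ) b] with x hx
    rw [hx]
    rfl
  rw [h1, LinearIsometry.inner_map_map]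

theorem koop_slice_iterate {T T' : Ω → Ω} (hT : MeasurePreserving T ν ν)
    (hT' : MeasurePreserving T' ν ν)
    (h : ∀ x, T' (T x) = x) (b : Lp ℝ 2 μ) (m : Lp ℝ 2 (ν.prod μ)) (n : ℕ) :
    (koop T hT)^[n] (slice b m)
      = slice b ((koop (Prod.map T id) (hT.prod (MeasurePreserving.id μ)))^[n] m) := by
  induction n generalizing m with
  | zero => rfl
  | succ n ih => rw [Function.iterate_succ_apply, Function.iterate_succ_apply,
      koop_slice hT hT' h, ih]

section ctrl

variable {H : Type*} [NormedAddCommGroup H] [InnerProductSpace ℝ H] [CompleteSpace H]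

/-- Vectors that are controlled by the numbers `d n`. -/
def ctrl (U : H →ₗᵢ[ℝ] H) (d : ℕ → ℝ) : Submodule ℝ H where
  carrier := {h | ∀ ε > 0, ∃ η > 0, ∀ n, d n ≤ η → ‖U^[n] h - h‖ ≤ ε}
  add_mem' := by
    intro a b ha hb ε hε
    obtain ⟨η₁, h1, h1'⟩ := ha (ε / 2) (by positivity)
    obtain ⟨η₂, h2, h2'⟩ := hb (ε / 2) (by positivity)
    refine ⟨min η₁ η₂, lt_min h1 h2, fun n hn => ?_⟩
    have e1 := h1' n (hn.trans (min_le_left _ _))
    have e2 := h2' n (hn.trans (min_le_right _ _))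
    have e3 : U^[n] (a + b) - (a + b) = (U^[n] a - a) + (U^[n] b - b) := by
      rw [iterate_add_apply']; abel
    rw [e3]
    exact (norm_add_le _ _).trans (by linarith)
  zero_mem' := by
    intro ε hε
    refine ⟨1, one_pos, fun n _ => ?_⟩
    have : U^[n] 0 = 0 := Function.iterate_fixed (map_zero U) n
    rw [this]; simpa using hε.le
  smul_mem' := by
    intro c a ha ε hε
    obtain ⟨η, h1, h1'⟩ := ha (ε / (|c| + 1)) (by positivity)
    refine ⟨η, h1, fun n hn => ?_⟩
    have e1 := h1' n hn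
    rw [iterate_smul_apply', ← smul_sub, norm_smul, Real.norm_eq_abs]
    have h2 : |c| * ‖U^[n] a - a‖ ≤ |c| * (ε / (|c| + 1)) := by gcongr
    refine h2.trans ?_
    rw [mul_div_assoc', div_le_iff₀ (by positivity)]
    nlinarith [abs_nonneg c]

theorem isClosed_ctrl (U : H →ₗᵢ[ℝ] H) (d : ℕ → ℝ) :
    IsClosed (ctrl U d : Set H) := by
  apply isClosed_of_closure_subset
  intro x hx ε hε
  obtain ⟨y, hy, hxy⟩ := Metric.mem_closure_iff.1 hx (ε / 3) (by positivity)
  obtain ⟨η, h1, h2⟩ := hy (ε / 3) (by positivity)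
  refine ⟨η, h1, fun n hn => ?_⟩
  have e1 := h2 n hn
  have e2 : U^[n] x - x = U^[n] (x - y) + (U^[n] y - y) + (y - x) := by
    rw [iterate_sub_apply']; abel
  rw [e2]
  have e3 : ‖x - y‖ < ε / 3 := by rwa [← dist_eq_norm]
  have e4 : ‖y - x‖ < ε / 3 := by rwa [norm_sub_rev]
  have e5 : ‖U^[n] (x - y)‖ < ε / 3 := by rwa [iterate_norm]
  calc ‖U^[n] (x - y) + (U^[n] y - y) + (y - x)‖
      ≤ ‖U^[n] (x - y) + (U^[n] y - y)‖ + ‖y - x‖ := norm_add_le _ _
    _ ≤ ‖U^[n] (x - y)‖ + ‖U^[n] y - y‖ + ‖y - x‖ := by gcongr; exact norm_add_le _ _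
    _ ≤ ε := by linarith

theorem iterate_mem_ctrl (U : H →ₗᵢ[ℝ] H) (d : ℕ → ℝ) (h : H) (hh : h ∈ ctrl U d)
    (m : ℕ) : U^[m] h ∈ ctrl U d := by
  intro ε hε
  obtain ⟨η, h1, h2⟩ := hh ε hε
  refine ⟨η, h1, fun n hn => ?_⟩
  have : U^[n] (U^[m] h) - U^[m] h = U^[m] (U^[n] h - h) := by
    rw [iterate_sub_apply', ← Function.iterate_add_apply, ← Function.iterate_add_apply, add_comm]
  rw [this, iterate_norm]
  exact h2 n hn

end ctrl

/-- The decomposition into an almost periodic and a weakly mixing part. -/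
theorem exists_decomp {Q Q' : Ω → Ω} (hE : Ergodic Q ν) (hQ : MeasurePreserving Q ν ν)
    (hQ' : MeasurePreserving Q' ν ν) (hQQ : ∀ x, Q' (Q x) = x)
    {A : Set Ω} (hA : MeasurableSet A) :
    ∃ c g : Lp ℝ 2 ν, ind ν hA = c + g ∧
      (∀ h : Lp ℝ 2 ν, Tendsto (fun N : ℕ => (N : ℝ)⁻¹ * ∑ n ∈ Finset.range N,
        (inner ℝ ((koop Q hQ)^[n] g) h) ^ 2) atTop (𝓝 0)) ∧
      (∀ ε > 0, ∃ V : Set Ω, MeasurableSet V ∧ ν V ≠ 0 ∧ ∀ n : ℕ, ν (V ∩ Q^[n] ⁻¹' V) ≠ 0 →
        ‖(koop Q hQ)^[n] c - c‖ ≤ ε) := by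
  set U := koop Q hQ with hU
  set W := koop (Prod.map Q Q) (hQ.prod hQ) with hW
  set U1 := koop (Prod.map Q id) (hQ.prod (MeasurePreserving.id ν)) with hU1
  set f := ind ν hA with hf
  set k := proj W (tens f f) with hk
  set d : ℕ → ℝ := fun n => ‖U1^[n] k - k‖ with hd
  set E := ctrl U d with hEd
  have hEc : IsClosed (E : Set (Lp ℝ 2 ν)) := isClosed_ctrl U d
  have : CompleteSpace E := hEc.completeSpace_coe
  obtain ⟨c, hc, g, hg, hfcg⟩ := E.exists_add_mem_mem_orthogonal f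
  have hslice : ∀ b, slice b k ∈ E := by
    intro b ε hε
    refine ⟨ε / (‖b‖ + 1), by positivity, fun n hn => ?_⟩
    have e1 : U^[n] (slice b k) - slice b k = slice b (U1^[n] k - k) := by
      rw [map_sub, koop_slice_iterate hQ hQ' hQQ]
    rw [e1]
    refine (norm_slice_le _ _).trans ?_
    have : ‖b‖ * ‖U1^[n] k - k‖ ≤ ‖b‖ * (ε / (‖b‖ + 1)) := by gcongr
    refine this.trans ?_
    rw [mul_div_assoc', div_le_iff₀ (by positivity)]
    nlinarith [norm_nonneg b]
  -- inner products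
  have hin : ∀ n, inner ℝ (U^[n] g) g = inner ℝ (U^[n] f) g := by
    intro n
    have h1 : inner ℝ (U^[n] c) g = 0 :=
      Submodule.inner_right_of_mem_orthogonal (iterate_mem_ctrl U d c hc n) hg
    rw [hfcg, iterate_add_apply', inner_add_left, h1, zero_add]
  -- averages of squares of `⟨U^n g, g⟩`
  have hgg : Tendsto (fun N : ℕ => (N : ℝ)⁻¹ * ∑ n ∈ Finset.range N,
      (inner ℝ (U^[n] g) g) ^ 2) atTop (𝓝 0) := by
    have h1 := (tendsto_avg W (tens f f)).inner (tendsto_const_nhds (x := tens g g)) (𝕜 := ℝ)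
    have h2 : inner ℝ (proj W (tens f f)) (tens g g) = 0 := by
      rw [← inner_slice]
      exact Submodule.inner_right_of_mem_orthogonal (hslice g) hg
    rw [h2] at h1
    refine h1.congr fun N => ?_
    simp only [avg]
    rw [real_inner_smul_left, sum_inner]
    congr 1
    apply Finset.sum_congr rfl
    intro n _
    rw [hin n, hW, koop_tens_iterate Q hQ Q hQ, inner_tens, ← hU]
    ring
  have hPgg : proj W (tens g g) = 0 := by
    have h1 := (tendsto_avg W (tens g g)).inner (tendsto_const_nhds (x := tens g g)) (𝕜 := ℝ)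
    rw [inner_proj_self] at h1
    have h2 : Tendsto (fun N : ℕ => inner ℝ (avg W N (tens g g)) (tens g g)) atTop (𝓝 0) := by
      refine hgg.congr fun N => ?_
      simp only [avg]
      rw [real_inner_smul_left, sum_inner]
      congr 1
      apply Finset.sum_congr rfl
      intro n _
      rw [hW, koop_tens_iterate Q hQ Q hQ, inner_tens, ← hU]
      ring
    have h3 := tendsto_nhds_unique h1 h2
    have h4 : ‖proj W (tens g g)‖ = 0 := by
      rwa [sq_eq_zero_iff] at h3
    exact norm_eq_zero.1 h4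
  refine ⟨c, g, hfcg, ?_, ?_⟩
  · intro h
    have h1 := (tendsto_avg W (tens g g)).inner (tendsto_const_nhds (x := tens h h)) (𝕜 := ℝ)
    rw [hPgg, inner_zero_left] at h1
    refine h1.congr fun N => ?_
    simp only [avg]
    rw [real_inner_smul_left, sum_inner]
    congr 1
    apply Finset.sum_congr rfl
    intro n _
    rw [hW, koop_tens_iterate Q hQ Q hQ, inner_tens, ← hU]
    ring
  · intro ε hε
    obtain ⟨η, hη, h1⟩ := hc ε hε
    obtain ⟨V, hV, hV0, h2⟩ := exists_recurrent_set hE hQ hA η hη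
    exact ⟨V, hV, hV0, fun n hn => h1 n (h2 n hn)⟩

end Pool.Agent.MRec
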