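import Pool.Agent.MRec.Assemble

set_option autoImplicit false
set_option linter.unusedSectionVars false
set_option linter.unusedSimpArgs false
set_option linter.unusedVariables false

open MeasureTheory Filter Topology
open scoped ENNReal

namespace Pool.Agent.MRec

variable {Ω : Type*} [MeasurableSpace Ω] {ν : Measure Ω} [IsProbabilityMeasure ν]
variable {μ : Measure Ω} [IsProbabilityMeasure μ]

/-- Mean ergodic theorem in `L¹` for bounded functions. -/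
theorem erg_L1 {P : Ω → Ω} (hE : Ergodic P ν) (hP : MeasurePreserving P ν ν) {F : Ω → ℝ}
    (hF : Measurable F) (C : ℝ) (hC : ∀ x, |F x| ≤ C) (ε : ℝ) (hε : 0 < ε) :
    ∃ N₀ : ℕ, ∀ N ≥ N₀, ∫ x, |(N : ℝ)⁻¹ * ∑ j ∈ Finset.range N, F (P^[j] x) - ∫ y, F y ∂ν| ∂ν ≤ ε := by
  have hmem : MemLp F 2 ν := MemLp.of_bound hF.aestronglyMeasurable C
    (ae_of_all _ fun x => by rw [Real.norm_eq_abs]; exact hC x)
  set FL : Lp ℝ 2 ν := hmem.toLp F with hFL
  have hFLae : FL =ᵐ[ν] F := hmem.coeFn_toLp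
  have ht := tendsto_avg (koop P hP) FL
  have hproj : proj (koop P hP) FL = (∫ y, F y ∂ν) • ind ν MeasurableSet.univ := by
    apply ext_inner_right ℝ
    intro b
    rw [inner_proj_ergodic hE hP, real_inner_smul_left, real_inner_comm b]
    congr 1
    rw [inner_ind_right, setIntegral_univ]
    exact integral_congr_ae hFLae
  rw [Metric.tendsto_atTop] at ht
  obtain ⟨N₀, hN₀⟩ := ht ε hε
  refine ⟨N₀, fun N hN => ?_⟩
  have h1 := (hN₀ N hN).le
  rw [dist_eq_norm] at h1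
  refine le_trans ?_ h1
  apply integral_abs_le_norm
  have h2 : ∀ N : ℕ, (∑ n ∈ Finset.range N, (koop P hP)^[n] FL : Lp ℝ 2 ν) =ᵐ[ν] fun x =>
      ∑ j ∈ Finset.range N, F (P^[j] x) := by
    intro N
    induction N with
    | zero =>
      simp only [Finset.range_zero, Finset.sum_empty]
      exact Lp.coeFn_zero ℝ 2 ν
    | succ N ih =>
      rw [Finset.sum_range_succ]
      refine (Lp.coeFn_add _ _).trans ?_
      filter_upwards [ih, coeFn_koop_iterate P hP FL N hFLae] with p hp hp'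
      rw [Pi.add_apply, hp, hp', Finset.sum_range_succ]
      rfl
  filter_upwards [Lp.coeFn_sub (avg (koop P hP) N FL) (proj (koop P hP) FL), h2 N,
    Lp.coeFn_smul ((N : ℝ)⁻¹) (∑ n ∈ Finset.range N, (koop P hP)^[n] FL : Lp ℝ 2 ν),
    Lp.coeFn_smul (∫ y, F y ∂ν) (ind ν MeasurableSet.univ),
    coeFn_ind (ν := ν) MeasurableSet.univ] with x e1 e2 e3 e4 e5
  rw [e1, Pi.sub_apply, hproj, e4, Pi.smul_apply, e5]
  have e6 : (avg (koop P hP) N FL : Lp ℝ 2 ν) x = (N : ℝ)⁻¹ * ∑ j ∈ Finset.range N, F (P^[j] x) := by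
    unfold avg
    rw [e3, Pi.smul_apply, e2]
    rfl
  rw [e6]
  simp

theorem int_le_of_le {K : ℝ} (hK : 0 ≤ K) (hle : ν ≤ ENNReal.ofReal K • μ) {F : Ω → ℝ}
    (hF : Measurable F) (hF0 : ∀ x, 0 ≤ F x) (C : ℝ) (hC : ∀ x, |F x| ≤ C) :
    ∫ x, F x ∂ν ≤ K * ∫ x, F x ∂μ := by
  have hi : Integrable F (ENNReal.ofReal K • μ) :=
    (int_of_bdd (ν := μ) hF C hC).smul_measure ENNReal.ofReal_ne_top
  have h1 := integral_mono_measure hle (ae_of_all _ hF0) hi
  rw [integral_smul_measure, ENNReal.toReal_ofReal hK] at h1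
  exact h1

theorem meas_le_of_le {K : ℝ} (hK : 0 ≤ K) (hle : ν ≤ ENNReal.ofReal K • μ) (s : Set Ω) :
    ν.real s ≤ K * μ.real s := by
  rw [measureReal_def, measureReal_def]
  have h1 := hle s
  have h2 : (ENNReal.ofReal K • μ) s = ENNReal.ofReal K * μ s := rfl
  rw [h2] at h1
  have h3 := ENNReal.toReal_mono (ENNReal.mul_ne_top ENNReal.ofReal_ne_top (measure_ne_top μ s)) h1
  rwa [ENNReal.toReal_mul, ENNReal.toReal_ofReal hK] at h3

theorem sum_even_le (a : ℕ → ℝ) (ha : ∀ n, 0 ≤ a n) (H : ℕ) :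
    ∑ h ∈ Finset.range H, a (2 * h) ≤ ∑ n ∈ Finset.range (2 * H), a n := by
  induction H with
  | zero => simp
  | succ H ih =>
    rw [Finset.sum_range_succ, show 2 * (H + 1) = 2 * H + 1 + 1 by ring, Finset.sum_range_succ,
      Finset.sum_range_succ]
    linarith [ha (2 * H + 1)]

theorem iterate_two (Q : Ω → Ω) (n : ℕ) (x : Ω) : (Q ∘ Q)^[n] x = Q^[2 * n] x := by
  rw [Function.iterate_mul]
  rfl

theorem recur {Q Q' : Ω → Ω} (hE : Ergodic Q ν) (hE' : Ergodic Q' ν)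
    (hQQ' : ∀ x, Q' (Q x) = x) (hQ'Q : ∀ x, Q (Q' x) = x) {B P : Ω → Ω}
    (hBP : (B = Q ∧ P = Q) ∨ (B = Q ∘ Q ∧ P = Q'))
    {S₁ S₂ : Ω → Ω} (hS₁ : MeasurePreserving S₁ μ μ) (hS₂ : MeasurePreserving S₂ μ μ)
    {A : Set Ω} (hA : MeasurableSet A) {K δ : ℝ} (hK : 1 ≤ K) (hδ : 0 < δ)
    (hle : ν ≤ ENNReal.ofReal K • μ) (hAδ : 4 * K * δ ≤ ν.real A) :
    ∀ N₁ : ℕ, ∃ N ≥ N₁, 0 < N ∧ ∀ s s' : ℕ, ∃ i < N, ∃ j < N,
      ν (A ∩ {x | B^[s + i] (P^[s' + j] x) ∈ A} ∩ (S₁^[s + i]) ⁻¹' A ∩ (S₂^[s' + j]) ⁻¹' A)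
        ≠ 0 := by
  have hQ : MeasurePreserving Q ν ν := hE.toMeasurePreserving
  have hQ' : MeasurePreserving Q' ν ν := hE'.toMeasurePreserving
  obtain ⟨c, g, hcm, hgm, hc0, hc1, hg1, hfcg, hgavg, hcV, hcδ⟩ :=
    exists_pack hE hQ hQ' hQQ' hA
  set f : Ω → ℝ := A.indicator (fun _ => (1 : ℝ)) with hf
  have hfm : Measurable f := measurable_const.indicator hA
  have hf0 : ∀ x, 0 ≤ f x := fun x => Set.indicator_nonneg (fun _ _ => zero_le_one) x
  have hf1 : ∀ x, f x ≤ 1 := fun x => Set.indicator_le_self' (fun _ _ => zero_le_one) x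
  have hcd : ∀ x y, |c x - c y| ≤ 1 := by
    intro x y
    rw [abs_le]; constructor
    · linarith [hc0 x, hc1 y]
    · linarith [hc1 x, hc0 y]
  -- choose `V`
  set ε₁ : ℝ := δ ^ 4 / 32 with hε₁
  have hε₁0 : 0 < ε₁ := by positivity
  obtain ⟨V, hV, hV0, hVc⟩ := hcV (ε₁ / 2) (by positivity)
  set w := wt ν Q V with hw
  have hw_ne : ∀ n, w n ≠ 0 → ν (V ∩ Q^[n] ⁻¹' V) ≠ 0 := by
    intro n hn h0
    apply hn
    rw [hw]; unfold wt
    rw [measureReal_def, h0]; simp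
  obtain ⟨M₁, hM₁, hM₁0, hM₁1, -, hM₁δ, hM₁t⟩ := exists_limit hE hQ hV hV0 hS₁ hA
  obtain ⟨M₂, hM₂, hM₂0, hM₂1, -, hM₂δ, hM₂t⟩ := exists_limit hE hQ hV hV0 hS₂ hA
  have hBPcomm : ∀ x, B (P x) = P (B x) := by
    rcases hBP with ⟨rfl, rfl⟩ | ⟨rfl, rfl⟩
    · intro x; rfl
    · intro x; simp only [Function.comp, hQQ', hQ'Q]
  have hBmp : MeasurePreserving B ν ν := by
    rcases hBP with ⟨rfl, rfl⟩ | ⟨rfl, rfl⟩
    · exact hQ
    · exact hQ.comp hQ
  have hPE : Ergodic P ν := by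
    rcases hBP with ⟨rfl, rfl⟩ | ⟨rfl, rfl⟩
    · exact hE
    · exact hE'
  have hPmp : MeasurePreserving P ν ν := hPE.toMeasurePreserving
  have hcQ : ∀ n, w n ≠ 0 → ∫ x, |c (Q^[n] x) - c x| ∂ν ≤ ε₁ / 2 := fun n hn => hVc n (hw_ne n hn)
  have h1B : ∀ n, w n ≠ 0 → ∫ x, |c (B^[n] x) - c x| ∂ν ≤ ε₁ := by
    intro n hn
    have h1 := hcQ n hn
    rcases hBP with ⟨rfl, rfl⟩ | ⟨rfl, rfl⟩
    · linarith
    · have b3 : ∫ x, |c (Q^[n] (Q^[n] x)) - c (Q^[n] x)| ∂ν = ∫ x, |c (Q^[n] x) - c x| ∂ν :=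
        integral_comp_mp (hQ.iterate n) (F := fun x => |c (Q^[n] x) - c x|)
          ((hcm.comp (hQ.measurable.iterate _)).sub hcm).abs
      have b5 : Integrable (fun x => |c (Q^[n] (Q^[n] x)) - c (Q^[n] x)|) ν := by
        apply int_of_bdd (((hcm.comp ((hQ.measurable.iterate n).comp (hQ.measurable.iterate n)))).sub
          (hcm.comp (hQ.measurable.iterate n))).abs 1
        intro x
        simp only [abs_abs, Pi.sub_apply, Function.comp]
        exact hcd _ _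
      have b6 : Integrable (fun x => |c (Q^[n] x) - c x|) ν := by
        apply int_of_bdd ((hcm.comp (hQ.measurable.iterate n)).sub hcm).abs 1
        intro x
        simp only [abs_abs, Pi.sub_apply, Function.comp]
        exact hcd _ _
      have b7 : Integrable (fun x => |c ((Q ∘ Q)^[n] x) - c x|) ν := by
        apply int_of_bdd ((hcm.comp ((hQ.measurable.comp hQ.measurable).iterate n)).sub hcm).abs 1
        intro x
        simp only [abs_abs, Pi.sub_apply, Function.comp]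
        exact hcd _ _
      calc ∫ x, |c ((Q ∘ Q)^[n] x) - c x| ∂ν
          ≤ ∫ x, (|c (Q^[n] (Q^[n] x)) - c (Q^[n] x)| + |c (Q^[n] x) - c x|) ∂ν := by
            apply integral_mono b7 (b5.add b6)
            intro x
            have : (Q ∘ Q)^[n] x = Q^[n] (Q^[n] x) := by
              rw [iterate_two, ← Function.iterate_add_apply, two_mul]
            simp only [this]
            exact abs_sub_le _ _ _
        _ = _ + _ := integral_add b5 b6
        _ ≤ ε₁ / 2 + ε₁ / 2 := by rw [b3]; gcongr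
        _ = ε₁ := by ring
  have h1P : ∀ n, w n ≠ 0 → ∫ x, |c (P^[n] x) - c x| ∂ν ≤ ε₁ := by
    intro n hn
    have h1 := hcQ n hn
    rcases hBP with ⟨rfl, rfl⟩ | ⟨rfl, rfl⟩
    · linarith
    · have b3 : ∫ x, |c (Q^[n] (P^[n] x)) - c (P^[n] x)| ∂ν = ∫ x, |c (Q^[n] x) - c x| ∂ν :=
        integral_comp_mp (hQ'.iterate n) (F := fun x => |c (Q^[n] x) - c x|)
          ((hcm.comp (hQ.measurable.iterate _)).sub hcm).abs
      have b4 : ∀ x, Q^[n] (P^[n] x) = x := fun x =>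
        Function.LeftInverse.iterate (g := Q) (f := P) (fun x => hQ'Q x) n x
      simp only [b4] at b3
      have b8 : ∫ x, |c (P^[n] x) - c x| ∂ν = ∫ x, |c x - c (P^[n] x)| ∂ν := by
        congr 1; ext x; exact abs_sub_comm _ _
      rw [b8, b3]
      linarith
  have h2 : ∃ N₀ : ℕ, ∀ N ≥ N₀, ∀ s : ℕ, (N : ℝ)⁻¹ * ∑ n ∈ Finset.range N, w (s + n) ≤ 2 := by
    obtain ⟨N₀, hN₀⟩ := wt_avg hE hQ hV hV0 1 one_pos
    refine ⟨N₀, fun N hN s => ?_⟩
    have := (abs_le.1 (hN₀ N hN s)).2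
    linarith
  have hgavg' : Tendsto (fun H : ℕ => (H : ℝ)⁻¹ * ∑ h ∈ Finset.range H,
      (∫ x, g (B^[h] x) * g x ∂ν) ^ 2) atTop (𝓝 0) := by
    rcases hBP with ⟨rfl, rfl⟩ | ⟨rfl, rfl⟩
    · exact hgavg
    · have h3 : Tendsto (fun H : ℕ => 2 * (((2 * H : ℕ) : ℝ)⁻¹ * ∑ n ∈ Finset.range (2 * H),
          (∫ x, g (Q^[n] x) * g x ∂ν) ^ 2)) atTop (𝓝 (2 * 0)) := by
        apply Tendsto.const_mul
        have h4 : Tendsto (fun H : ℕ => 2 * H) atTop atTop :=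
          tendsto_id.const_mul_atTop' (by norm_num)
        exact hgavg.comp h4
      rw [mul_zero] at h3
      refine squeeze_zero (fun H => by positivity) (fun H => ?_) h3
      have h5 := sum_even_le (fun n => (∫ x, g (Q^[n] x) * g x ∂ν) ^ 2) (fun n => sq_nonneg _) H
      have h6 : ∀ h, (∫ x, g ((Q ∘ Q)^[h] x) * g x ∂ν) ^ 2
          = (∫ x, g (Q^[2 * h] x) * g x ∂ν) ^ 2 := by
        intro h; simp only [iterate_two]
      simp only [h6]
      calc (H : ℝ)⁻¹ * ∑ h ∈ Finset.range H, (∫ x, g (Q^[2 * h] x) * g x ∂ν) ^ 2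
          ≤ (H : ℝ)⁻¹ * ∑ n ∈ Finset.range (2 * H), (∫ x, g (Q^[n] x) * g x ∂ν) ^ 2 := by
            gcongr
        _ = 2 * (((2 * H : ℕ) : ℝ)⁻¹ * ∑ n ∈ Finset.range (2 * H),
            (∫ x, g (Q^[n] x) * g x ∂ν) ^ 2) := by
            rw [Nat.cast_mul, mul_inv]
            push_cast
            ring
  have h4 := tendsto_avg_abs hgavg'
  have h5 : ∀ h : ℕ, ∀ ε > 0, ∃ N₀ : ℕ, ∀ N ≥ N₀,
      ∫ x, |corr B P g N h x - ∫ y, g (B^[h] y) * g y ∂ν| ∂ν ≤ ε := by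
    intro h ε hε
    have hFm : Measurable fun x => g (B^[h] x) * g x :=
      (hgm.comp (hBmp.measurable.iterate h)).mul hgm
    exact erg_L1 hPE hPmp hFm 1 (fun x => by
      rw [abs_mul]; exact mul_le_one₀ (hg1 _) (abs_nonneg _) (hg1 _)) ε hε
  -- transfer from `μ` to `ν`
  have hK0 : 0 ≤ K := by linarith
  have htr : ∀ (S : Ω → Ω) (hS : Measurable S) (M : Ω → ℝ) (hM : Measurable M)
      (hM0 : ∀ x, 0 ≤ M x) (hM1 : ∀ x, M x ≤ 1)
      (ht : ∀ ε > 0, ∃ N₀ : ℕ, ∀ N ≥ N₀, ∀ s : ℕ, ∫ y, |(N : ℝ)⁻¹ * ∑ n ∈ Finset.range N,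
        w (s + n) * f (S^[s + n] y) - M y| ∂μ ≤ ε),
      ∀ ε > 0, ∃ N₀ : ℕ, ∀ N ≥ N₀, ∀ s : ℕ, ∫ y, |(N : ℝ)⁻¹ * ∑ n ∈ Finset.range N,
        w (s + n) * f (S^[s + n] y) - M y| ∂ν ≤ ε := by
    intro S hS M hM hM0 hM1 ht ε hε
    obtain ⟨N₀, hN₀⟩ := ht (ε / K) (by positivity)
    refine ⟨N₀, fun N hN s => ?_⟩
    have h6 := hN₀ N hN s
    have hm : Measurable fun y => |(N : ℝ)⁻¹ * ∑ n ∈ Finset.range N,
        w (s + n) * f (S^[s + n] y) - M y| := by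
      refine ((Measurable.const_mul ?_ _).sub hM).abs
      exact Finset.measurable_sum _ fun n _ => (hfm.comp (hS.iterate _)).const_mul _
    have hb : ∀ y, |(N : ℝ)⁻¹ * ∑ n ∈ Finset.range N, w (s + n) * f (S^[s + n] y) - M y|
        ≤ 1 / (ν.real V) ^ 2 + 1 := by
      intro y
      refine (abs_sub _ _).trans ?_
      apply add_le_add
      · apply abs_avg_le N _ _ (by positivity)
        intro n
        rw [abs_mul, abs_of_nonneg (wt_nonneg Q V _), abs_of_nonneg (hf0 _)]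
        calc w (s + n) * f (S^[s + n] y) ≤ (1 / (ν.real V) ^ 2) * 1 := by
              gcongr
              · exact hf0 _
              · exact wt_le Q V _
              · exact hf1 _
          _ = _ := mul_one _
      · rw [abs_of_nonneg (hM0 y)]; exact hM1 y
    have h7 := int_le_of_le hK0 hle hm (fun y => abs_nonneg _) (1 / (ν.real V) ^ 2 + 1)
      (fun y => by rw [abs_abs]; exact hb y)
    refine h7.trans ?_
    calc K * ∫ y, |(N : ℝ)⁻¹ * ∑ n ∈ Finset.range N, w (s + n) * f (S^[s + n] y) - M y| ∂μ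
        ≤ K * (ε / K) := by gcongr
      _ = ε := by field_simp
  have h31 := htr S₁ hS₁.measurable M₁ hM₁ hM₁0 hM₁1 hM₁t
  have h32 := htr S₂ hS₂.measurable M₂ hM₂ hM₂0 hM₂1 hM₂t
  -- positivity
  have hpos : 8 * ε₁ < ∫ x, f x * c x * M₁ x * M₂ x ∂ν := by
    set D : Set Ω := {x | x ∈ A ∧ δ / 2 < c x ∧ δ < M₁ x ∧ δ < M₂ x} with hD
    have hDm : MeasurableSet D :=
      hA.inter ((measurableSet_lt measurable_const hcm).inter
        ((measurableSet_lt measurable_const hM₁).inter (measurableSet_lt measurable_const hM₂)))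
    have hsub : A ⊆ D ∪ ({x | x ∈ A ∧ c x ≤ δ / 2} ∪ ({x | x ∈ A ∧ M₁ x ≤ δ} ∪
        {x | x ∈ A ∧ M₂ x ≤ δ})) := by
      intro x hx
      by_cases p1 : c x ≤ δ / 2
      · exact Or.inr (Or.inl ⟨hx, p1⟩)
      by_cases p2 : M₁ x ≤ δ
      · exact Or.inr (Or.inr (Or.inl ⟨hx, p2⟩))
      by_cases p3 : M₂ x ≤ δ
      · exact Or.inr (Or.inr (Or.inr ⟨hx, p3⟩))
      push Not at p1 p2 p3
      exact Or.inl ⟨hx, p1, p2, p3⟩
    have q1 : ν.real A ≤ ν.real D + (δ + (K * δ + K * δ)) := by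
      refine (measureReal_mono hsub).trans ((measureReal_union_le _ _).trans ?_)
      refine add_le_add le_rfl ((measureReal_union_le _ _).trans (add_le_add (hcδ δ hδ) ?_))
      refine (measureReal_union_le _ _).trans (add_le_add ?_ ?_)
      · refine (meas_le_of_le hK0 hle _).trans ?_
        gcongr
        exact hM₁δ δ hδ.le
      · refine (meas_le_of_le hK0 hle _).trans ?_
        gcongr
        exact hM₂δ δ hδ.le
    have q2 : δ ≤ ν.real D := by nlinarith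
    have q3 : ∫ x, D.indicator (fun _ => δ / 2 * δ * δ) x ∂ν ≤ ∫ x, f x * c x * M₁ x * M₂ x ∂ν := by
      apply integral_mono
      · exact (integrable_const _).indicator hDm
      · apply int_of_bdd (((hfm.mul hcm).mul hM₁).mul hM₂) 1
        intro x
        show |f x * c x * M₁ x * M₂ x| ≤ 1
        have q0 : 0 ≤ f x * c x := mul_nonneg (hf0 x) (hc0 x)
        have q1 : f x * c x ≤ 1 := mul_le_one₀ (hf1 x) (hc0 x) (hc1 x)
        have q2 : 0 ≤ f x * c x * M₁ x := mul_nonneg q0 (hM₁0 x)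
        have q3 : f x * c x * M₁ x ≤ 1 := mul_le_one₀ q1 (hM₁0 x) (hM₁1 x)
        rw [abs_of_nonneg (mul_nonneg q2 (hM₂0 x))]
        exact mul_le_one₀ q3 (hM₂0 x) (hM₂1 x)
      · intro x
        by_cases hx : x ∈ D
        · simp only [hx, Set.indicator_of_mem]
          obtain ⟨hxA, r1, r2, r3⟩ := hx
          have hfx : f x = 1 := by simp [hf, hxA]
          rw [hfx, one_mul]
          have y1 : δ / 2 * δ ≤ c x * M₁ x := mul_le_mul r1.le r2.le hδ.le (hc0 x)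
          exact mul_le_mul y1 r3.le hδ.le (mul_nonneg (hc0 x) (hM₁0 x))
        · simp only [hx, not_false_eq_true, Set.indicator_of_notMem]
          exact mul_nonneg (mul_nonneg (mul_nonneg (hf0 x) (hc0 x)) (hM₁0 x)) (hM₂0 x)
    rw [integral_indicator hDm, setIntegral_const, smul_eq_mul] at q3
    have q4 : δ * (δ / 2 * δ * δ) ≤ ν.real D * (δ / 2 * δ * δ) := by gcongr
    have q5 : 8 * ε₁ < δ * (δ / 2 * δ * δ) := by
      rw [hε₁]
      have : 0 < δ ^ 4 := by positivity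
      nlinarith
    linarith
  have hmain := main_est hBmp hPmp hBPcomm hfm hf0 hf1 hcm hc0 hc1 hgm hg1 hfcg
    hS₁.measurable hS₂.measurable (fun n => wt_nonneg Q V n) (fun n => wt_le Q V n) ε₁ hε₁0.le
    h1B h1P h2 hM₁ hM₁0 hM₁1 hM₂ hM₂0 hM₂1 h31 h32 h4 h5 hpos
  intro N₁
  obtain ⟨N, hN, hN0, hmainN⟩ := hmain N₁
  refine ⟨N, hN, hN0, fun s s' => ?_⟩
  obtain ⟨i, hi, j, hj, hij⟩ := hmainN s s'
  refine ⟨i, hi, j, hj, fun h0 => hij ?_⟩
  apply integral_eq_zero_of_ae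
  rw [Filter.EventuallyEq, ae_iff]
  refine measure_mono_null ?_ h0
  intro x hx
  simp only [Set.mem_setOf_eq, Pi.zero_apply, mul_eq_zero, not_or] at hx
  obtain ⟨⟨⟨x1, x2⟩, x3⟩, x4⟩ := hx
  have hmem : ∀ y, f y ≠ 0 → y ∈ A := by
    intro y hy
    by_contra hcon
    exact hy (by simp [hf, hcon])
  exact ⟨⟨⟨hmem _ x1, hmem _ x2⟩, hmem _ x3⟩, hmem _ x4⟩

end Pool.Agent.MRec
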