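import Pool.Agent.MRec.Tensor

set_option autoImplicit false
set_option linter.unusedSectionVars false
set_option linter.unusedSimpArgs false

open MeasureTheory Filter Topology
open scoped ENNReal

namespace Pool.Agent.MRec

variable {Ω : Type*} [MeasurableSpace Ω] {ν : Measure Ω} [IsProbabilityMeasure ν]

/-- Squared distance of two sections of a kernel. -/
noncomputable def secDist (ν : Measure Ω) (k : Ω × Ω → ℝ) (Q : Ω → Ω) (n : ℕ) (x : Ω) : ℝ≥0∞ :=
  ∫⁻ y, ENNReal.ofReal ((k (Q^[n] x, y) - k (x, y)) ^ 2) ∂ν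

theorem measurable_secDist {k : Ω × Ω → ℝ} (hk : Measurable k) {Q : Ω → Ω} (hQ : Measurable Q)
    (n : ℕ) : Measurable (secDist ν k Q n) := by
  unfold secDist
  have h1 : Measurable fun p : Ω × Ω => k (Q^[n] p.1, p.2) :=
    hk.comp (((hQ.iterate n).comp measurable_fst).prodMk measurable_snd)
  exact Measurable.lintegral_prod_right'
    (f := fun p : Ω × Ω => ENNReal.ofReal ((k (Q^[n] p.1, p.2) - k p) ^ 2))
    ((h1.sub hk).pow_const 2).ennreal_ofReal

theorem secDist_const {k : Ω × Ω → ℝ} (hk : Measurable k) {Q : Ω → Ω}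
    (hE : Ergodic Q ν) (hinv : k ∘ (Prod.map Q Q) =ᵐ[ν.prod ν] k) (n : ℕ) :
    ∃ c, secDist ν k Q n =ᵐ[ν] Function.const Ω c := by
  have hQ : MeasurePreserving Q ν ν := hE.toMeasurePreserving
  apply hE.ae_eq_const_of_ae_eq_comp₀ (measurable_secDist hk hQ.measurable n).nullMeasurable
  have hmap : MeasurePreserving (Prod.map Q^[n] id) (ν.prod ν) (ν.prod ν) :=
    (hQ.iterate n).prod (MeasurePreserving.id ν)
  have h1 : ∀ᵐ p ∂(ν.prod ν), k (Q p.1, Q p.2) = k (p.1, p.2) := by
    filter_upwards [hinv] with p hp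
    exact hp
  have h2 : ∀ᵐ p ∂(ν.prod ν), k (Q (Q^[n] p.1), Q p.2) = k (Q^[n] p.1, p.2) := by
    have := hmap.quasiMeasurePreserving.ae h1
    filter_upwards [this] with p hp
    exact hp
  have h3 := Measure.ae_ae_of_ae_prod h1
  have h4 := Measure.ae_ae_of_ae_prod h2
  filter_upwards [h3, h4] with x hx hx'
  show secDist ν k Q n (Q x) = secDist ν k Q n x
  unfold secDist
  have hm : Measurable fun y => ENNReal.ofReal ((k (Q^[n] (Q x), y) - k (Q x, y)) ^ 2) := by
    have a1 : Measurable fun y => k (Q^[n] (Q x), y) := hk.comp measurable_prodMk_left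
    have a2 : Measurable fun y => k (Q x, y) := hk.comp measurable_prodMk_left
    exact ((a1.sub a2).pow_const 2).ennreal_ofReal
  rw [← hQ.lintegral_comp hm]
  apply lintegral_congr_ae
  filter_upwards [hx, hx'] with y hy hy'
  have e : Q^[n] (Q x) = Q (Q^[n] x) := by
    rw [← Function.iterate_succ_apply, Function.iterate_succ_apply']
  rw [e, hy, hy']

/-- The truncated kernel. -/
noncomputable def kerN (Q : Ω → Ω) (A : Set Ω) (N : ℕ) (p : Ω × Ω) : ℝ :=
  (N : ℝ)⁻¹ * ∑ n ∈ Finset.range N,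
    (A.indicator (fun _ => (1 : ℝ)) (Q^[n] p.1)) * (A.indicator (fun _ => (1 : ℝ)) (Q^[n] p.2))

theorem measurable_kerN {Q : Ω → Ω} (hQ : Measurable Q) {A : Set Ω} (hA : MeasurableSet A)
    (N : ℕ) : Measurable (kerN Q A N) := by
  unfold kerN
  apply Measurable.const_mul
  apply Finset.measurable_sum
  intro n _
  have h : Measurable (A.indicator (fun _ => (1 : ℝ))) := measurable_const.indicator hA
  exact (h.comp ((hQ.iterate n).comp measurable_fst)).mul
    (h.comp ((hQ.iterate n).comp measurable_snd))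

/-- Indicator function in `L²`. -/
noncomputable def ind (ν : Measure Ω) [IsProbabilityMeasure ν] {A : Set Ω} (hA : MeasurableSet A) :
    Lp ℝ 2 ν := indicatorConstLp 2 hA (measure_ne_top ν A) (1 : ℝ)

theorem coeFn_ind {A : Set Ω} (hA : MeasurableSet A) :
    ind ν hA =ᵐ[ν] A.indicator (fun _ => (1 : ℝ)) :=
  indicatorConstLp_coeFn

theorem avg_coeFn {Q : Ω → Ω} (hQ : MeasurePreserving Q ν ν) {A : Set Ω} (hA : MeasurableSet A)
    (N : ℕ) : ⇑(avg (koop (Prod.map Q Q) (hQ.prod hQ)) N (tens (ind ν hA) (ind ν hA)))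
      =ᵐ[ν.prod ν] kerN Q A N := by
  have h0 : tens (ind ν hA) (ind ν hA) =ᵐ[ν.prod ν] fun p =>
      (A.indicator (fun _ => (1 : ℝ)) p.1) * (A.indicator (fun _ => (1 : ℝ)) p.2) :=
    tens_congr_ae (coeFn_ind hA) (coeFn_ind hA)
  have h1 : ∀ n, (koop (Prod.map Q Q) (hQ.prod hQ))^[n] (tens (ind ν hA) (ind ν hA))
      =ᵐ[ν.prod ν] fun p => (A.indicator (fun _ => (1 : ℝ)) (Q^[n] p.1)) *
        (A.indicator (fun _ => (1 : ℝ)) (Q^[n] p.2)) := by
    intro n
    refine (coeFn_koop_iterate _ (hQ.prod hQ) _ n h0).trans ?_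
    refine ae_of_all _ fun p => ?_
    simp only [Function.comp, Prod.map_iterate, Prod.map_fst, Prod.map_snd]
  unfold avg
  refine (Lp.coeFn_smul _ _).trans ?_
  have h2 : ∀ N : ℕ, (∑ n ∈ Finset.range N, (koop (Prod.map Q Q) (hQ.prod hQ))^[n]
      (tens (ind ν hA) (ind ν hA)) : Lp ℝ 2 (ν.prod ν)) =ᵐ[ν.prod ν] fun p =>
      ∑ n ∈ Finset.range N, (A.indicator (fun _ => (1 : ℝ)) (Q^[n] p.1)) *
        (A.indicator (fun _ => (1 : ℝ)) (Q^[n] p.2)) := by
    intro N
    induction N with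
    | zero =>
      simp only [Finset.range_zero, Finset.sum_empty]
      exact Lp.coeFn_zero ℝ 2 (ν.prod ν)
    | succ N ih =>
      rw [Finset.sum_range_succ]
      refine (Lp.coeFn_add _ _).trans ?_
      filter_upwards [ih, h1 N] with p hp hp'
      rw [Pi.add_apply, hp, hp', Finset.sum_range_succ]
  filter_upwards [h2 N] with p hp
  rw [Pi.smul_apply, hp]
  rfl

theorem exists_recurrent_set {Q : Ω → Ω} (hE : Ergodic Q ν) (hQ : MeasurePreserving Q ν ν)
    {A : Set Ω} (hA : MeasurableSet A) (η : ℝ) (hη : 0 < η) :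
    ∃ V : Set Ω, MeasurableSet V ∧ ν V ≠ 0 ∧ ∀ n : ℕ, ν (V ∩ Q^[n] ⁻¹' V) ≠ 0 →
      ‖(koop (Prod.map Q id) (hQ.prod (MeasurePreserving.id ν)))^[n]
        (proj (koop (Prod.map Q Q) (hQ.prod hQ)) (tens (ind ν hA) (ind ν hA)))
        - proj (koop (Prod.map Q Q) (hQ.prod hQ)) (tens (ind ν hA) (ind ν hA))‖ ≤ η := by
  classical
  set W := koop (Prod.map Q Q) (hQ.prod hQ) with hW
  set k := proj W (tens (ind ν hA) (ind ν hA)) with hk
  set kf : Ω × Ω → ℝ := ⇑k with hkf
  have hkm : Measurable kf := (Lp.stronglyMeasurable k).measurable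
  have hinv : kf ∘ (Prod.map Q Q) =ᵐ[ν.prod ν] kf := by
    have h1 := coeFn_koop (Prod.map Q Q) (hQ.prod hQ) k
    have h2 : koop (Prod.map Q Q) (hQ.prod hQ) k = k := proj_fixed W _
    rw [h2] at h1
    exact h1.symm
  -- choose `N`
  have hη2 : 0 < η ^ 2 / 8 := by positivity
  obtain ⟨N, hN⟩ : ∃ N, ‖avg W N (tens (ind ν hA) (ind ν hA)) - k‖ ^ 2 ≤ η ^ 2 / 8 := by
    have ht := tendsto_avg W (tens (ind ν hA) (ind ν hA))
    have h1 : Tendsto (fun N => ‖avg W N (tens (ind ν hA) (ind ν hA)) - k‖ ^ 2) atTop (𝓝 0) := by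
      have := ((ht.sub_const k).norm).pow 2
      simpa [hk] using this
    have h2 := (h1.eventually (ge_mem_nhds hη2)).exists
    exact h2
  -- the function `G`
  set G : Ω → ℝ≥0∞ := fun x => ∫⁻ y, ENNReal.ofReal ((kf (x, y) - kerN Q A N (x, y)) ^ 2) ∂ν
    with hG
  have hkNm := measurable_kerN hQ.measurable hA N
  have hFm : Measurable fun p : Ω × Ω => ENNReal.ofReal ((kf p - kerN Q A N p) ^ 2) :=
    ((hkm.sub hkNm).pow_const 2).ennreal_ofReal
  have hGm : Measurable G := Measurable.lintegral_prod_right' hFm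
  have hGint : ∫⁻ x, G x ∂ν ≤ ENNReal.ofReal (η ^ 2 / 8) := by
    have h1 : ∫⁻ x, G x ∂ν = ∫⁻ p, ENNReal.ofReal ((kf p - kerN Q A N p) ^ 2) ∂(ν.prod ν) := by
      rw [lintegral_prod _ hFm.aemeasurable]
    rw [h1]
    have h2 : ∫⁻ p, ENNReal.ofReal ((kf p - kerN Q A N p) ^ 2) ∂(ν.prod ν)
        = ENNReal.ofReal (‖avg W N (tens (ind ν hA) (ind ν hA)) - k‖ ^ 2) := by
      rw [ofReal_norm_sq]
      apply lintegral_congr_ae
      filter_upwards [Lp.coeFn_sub (avg W N (tens (ind ν hA) (ind ν hA))) k,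
        avg_coeFn hQ hA N] with p h3 h4
      rw [h3, Pi.sub_apply, h4]
      congr 1
      ring
    rw [h2]
    exact ENNReal.ofReal_le_ofReal hN
  set Good : Set Ω := {x | G x < ENNReal.ofReal (η ^ 2 / 4)} with hGood
  have hGoodm : MeasurableSet Good := measurableSet_lt hGm measurable_const
  have hGood0 : ν Good ≠ 0 := by
    intro h0
    have h1 : ν {x | ENNReal.ofReal (η ^ 2 / 4) ≤ G x} = 1 := by
      have : {x | ENNReal.ofReal (η ^ 2 / 4) ≤ G x} = Goodᶜ := by
        ext x; simp [hGood]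
      rw [this, prob_compl_eq_one_iff hGoodm]
      exact h0
    have h2 := mul_meas_ge_le_lintegral hGm (μ := ν) (ENNReal.ofReal (η ^ 2 / 4))
    rw [h1, mul_one] at h2
    have h3 := h2.trans hGint
    rw [ENNReal.ofReal_le_ofReal_iff (by positivity)] at h3
    nlinarith
  -- patterns
  let cell : (Fin N → Prop) → Set Ω := fun p => Good ∩ ⋂ i : Fin N, {x | Q^[(i : ℕ)] x ∈ A ↔ p i}
  have hcellm : ∀ p, MeasurableSet (cell p) := by
    intro p
    apply hGoodm.inter
    apply MeasurableSet.iInter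
    intro i
    have h1 : MeasurableSet {x | Q^[(i : ℕ)] x ∈ A} := (hQ.measurable.iterate i) hA
    by_cases hp : p i
    · have h2 : {x | Q^[(i : ℕ)] x ∈ A ↔ p i} = {x | Q^[(i : ℕ)] x ∈ A} := by
        ext x; simp [hp]
      rw [h2]; exact h1
    · have h2 : {x | Q^[(i : ℕ)] x ∈ A ↔ p i} = {x | Q^[(i : ℕ)] x ∈ A}ᶜ := by
        ext x; simp [hp]
      rw [h2]; exact h1.compl
  have hcover : Good ⊆ ⋃ p, cell p := by
    intro x hx
    refine Set.mem_iUnion.2 ⟨fun i => Q^[(i : ℕ)] x ∈ A, hx, ?_⟩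
    simp
  obtain ⟨p, hp⟩ : ∃ p, ν (cell p) ≠ 0 := by
    by_contra hcon
    push Not at hcon
    apply hGood0
    refine measure_mono_null hcover ?_
    rw [measure_iUnion_null_iff]
    exact hcon
  refine ⟨cell p, hcellm p, hp, ?_⟩
  intro n hn
  obtain ⟨c, hc⟩ := secDist_const hkm hE hinv n
  have hcle : c ≤ ENNReal.ofReal (η ^ 2) := by
    -- a point in the intersection
    have h1 : ∃ x, x ∈ cell p ∩ Q^[n] ⁻¹' cell p ∧ secDist ν kf Q n x = c := by
      by_contra hcon
      push Not at hcon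
      apply hn
      have h2 : ν {x | secDist ν kf Q n x ≠ c} = 0 := by
        have := hc
        rw [Filter.EventuallyEq, ae_iff] at this
        exact this
      exact measure_mono_null (fun x hx => hcon x hx) h2
    obtain ⟨x, ⟨hx1, hx2⟩, hx3⟩ := h1
    rw [← hx3]
    have hkeq : ∀ y, kerN Q A N (Q^[n] x, y) = kerN Q A N (x, y) := by
      intro y
      unfold kerN
      congr 1
      apply Finset.sum_congr rfl
      intro m hm
      have hm' := Finset.mem_range.1 hm
      have a1 : Q^[m] x ∈ A ↔ p ⟨m, hm'⟩ := by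
        have := Set.mem_iInter.1 hx1.2 ⟨m, hm'⟩
        exact this
      have a2 : Q^[m] (Q^[n] x) ∈ A ↔ p ⟨m, hm'⟩ := by
        have := Set.mem_iInter.1 hx2.2 ⟨m, hm'⟩
        exact this
      simp only [Set.indicator_apply]
      by_cases hpm : p ⟨m, hm'⟩
      · simp [a1.2 hpm, a2.2 hpm]
      · simp [mt a1.1 hpm, mt a2.1 hpm]
    have hg1 : G x < ENNReal.ofReal (η ^ 2 / 4) := hx1.1
    have hg2 : G (Q^[n] x) < ENNReal.ofReal (η ^ 2 / 4) := hx2.1
    have hle : secDist ν kf Q n x ≤ 2 * G (Q^[n] x) + 2 * G x := by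
      simp only [secDist, hG]
      rw [← lintegral_const_mul, ← lintegral_const_mul, ← lintegral_add_left]
      · apply lintegral_mono
        intro y
        simp only []
        rw [← ENNReal.ofReal_ofNat, ← ENNReal.ofReal_mul (by norm_num),
          ← ENNReal.ofReal_mul (by norm_num), ← ENNReal.ofReal_add (by positivity) (by positivity)]
        apply ENNReal.ofReal_le_ofReal
        rw [hkeq y]
        nlinarith [sq_nonneg ((kf (Q^[n] x, y) - kerN Q A N (x, y)) +
          (kf (x, y) - kerN Q A N (x, y)))]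
      · apply Measurable.const_mul
        exact hFm.comp (measurable_prodMk_left (x := Q^[n] x))
      · exact hFm.comp (measurable_prodMk_left (x := x))
      · exact hFm.comp (measurable_prodMk_left (x := Q^[n] x))
    refine hle.trans ?_
    have h3 : 2 * G (Q^[n] x) + 2 * G x ≤ 2 * ENNReal.ofReal (η ^ 2 / 4) +
        2 * ENNReal.ofReal (η ^ 2 / 4) := by
      gcongr
    refine h3.trans ?_
    rw [← ENNReal.ofReal_ofNat, ← ENNReal.ofReal_mul (by norm_num),
      ← ENNReal.ofReal_add (by positivity) (by positivity)]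
    apply ENNReal.ofReal_le_ofReal
    linarith
  -- conclude
  have hfin : ENNReal.ofReal (‖(koop (Prod.map Q id) (hQ.prod (MeasurePreserving.id ν)))^[n] k
      - k‖ ^ 2) ≤ ENNReal.ofReal (η ^ 2) := by
    rw [ofReal_norm_sq]
    have h1 : ∫⁻ q, ENNReal.ofReal ((((koop (Prod.map Q id)
        (hQ.prod (MeasurePreserving.id ν)))^[n] k - k : Lp ℝ 2 (ν.prod ν)) q) ^ 2) ∂(ν.prod ν)
        = ∫⁻ q, ENNReal.ofReal ((kf (Q^[n] q.1, q.2) - kf (q.1, q.2)) ^ 2) ∂(ν.prod ν) := by
      apply lintegral_congr_ae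
      filter_upwards [Lp.coeFn_sub ((koop (Prod.map Q id)
        (hQ.prod (MeasurePreserving.id ν)))^[n] k) k,
        coeFn_koop_iterate (Prod.map Q id) (hQ.prod (MeasurePreserving.id ν)) k n
          (EventuallyEq.refl _ kf)] with q h2 h3
      rw [h2, Pi.sub_apply, h3]
      simp only [Function.comp, Prod.map_iterate, Function.iterate_id]
      rfl
    rw [h1, lintegral_prod]
    · calc ∫⁻ x, ∫⁻ y, ENNReal.ofReal ((kf (Q^[n] x, y) - kf (x, y)) ^ 2) ∂ν ∂ν
          = ∫⁻ x, c ∂ν := by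
            apply lintegral_congr_ae
            filter_upwards [hc] with x hx
            exact hx
        _ = c := by simp
        _ ≤ _ := hcle
    · have h1 : Measurable fun p : Ω × Ω => kf (Q^[n] p.1, p.2) :=
        hkm.comp (((hQ.measurable.iterate n).comp measurable_fst).prodMk measurable_snd)
      exact (((h1.sub hkm).pow_const 2).ennreal_ofReal).aemeasurable
  rw [ENNReal.ofReal_le_ofReal_iff (by positivity)] at hfin
  exact (sq_le_sq₀ (norm_nonneg _) hη.le).1 hfin

end Pool.Agent.MRec
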