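import Pool.Agent.MRec.Pack

set_option autoImplicit false
set_option linter.unusedSectionVars false
set_option linter.unusedSimpArgs false

open MeasureTheory Filter Topology
open scoped ENNReal

namespace Pool.Agent.MRec

/-- Distance of two natural numbers. -/
def hd (t t' : ℕ) : ℕ := (t - t') + (t' - t)

theorem sum_hd_le (φ : ℕ → ℝ) (hφ : ∀ n, 0 ≤ φ n) (H t : ℕ) (ht : t < H) :
    ∑ t' ∈ Finset.range H, φ (hd t t') ≤ 2 * ∑ h ∈ Finset.range H, φ h := by
  classical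
  have hmaps : ∀ t' ∈ Finset.range H, hd t t' ∈ Finset.range H := by
    intro t' ht'
    rw [Finset.mem_range] at *
    unfold hd; omega
  rw [← Finset.sum_fiberwise_of_maps_to hmaps, Finset.mul_sum]
  apply Finset.sum_le_sum
  intro h _
  have h1 : ∑ i ∈ Finset.range H with hd t i = h, φ (hd t i)
      = ∑ i ∈ Finset.range H with hd t i = h, φ h := by
    apply Finset.sum_congr rfl
    intro i hi
    rw [(Finset.mem_filter.1 hi).2]
  rw [h1, Finset.sum_const, nsmul_eq_mul]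
  have h2 : (Finset.range H).filter (fun i => hd t i = h) ⊆ {t - h, t + h} := by
    intro i hi
    have := (Finset.mem_filter.1 hi).2
    unfold hd at this
    simp only [Finset.mem_insert, Finset.mem_singleton]
    omega
  have h3 : (((Finset.range H).filter (fun i => hd t i = h)).card : ℝ) ≤ 2 := by
    exact_mod_cast (Finset.card_le_card h2).trans Finset.card_le_two
  nlinarith [hφ h]

theorem sum_range_block (F : ℕ → ℝ) (H L : ℕ) :
    ∑ i ∈ Finset.range (H * L), F i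
      = ∑ l ∈ Finset.range L, ∑ t ∈ Finset.range H, F (H * l + t) := by
  induction L with
  | zero => simp
  | succ L ih => rw [Nat.mul_succ, Finset.sum_range_add, ih, Finset.sum_range_succ]

/-- The pointwise inequality behind the block estimate. -/
theorem block_ineq (N H : ℕ) (hN : 0 < N) (hH : 0 < H) (W θ : ℝ) (hθ : 0 < θ) (u : ℕ → ℝ)
    (b : ℕ → ℝ) (G : ℕ → ℕ → ℝ)
    (hu : ∀ j, |u j| ≤ W) (hb : ∀ t, |b t| ≤ W) :
    |(N : ℝ)⁻¹ * ∑ j ∈ Finset.range N, (H : ℝ)⁻¹ * ∑ t ∈ Finset.range H, u j * (b t * G t j)|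
      ≤ θ / 2 * W ^ 2 + 1 / (2 * θ) * (W ^ 2 * (((H : ℝ)⁻¹) ^ 2 *
        ∑ t ∈ Finset.range H, ∑ t' ∈ Finset.range H,
          |(N : ℝ)⁻¹ * ∑ j ∈ Finset.range N, G t j * G t' j|)) := by
  have hW : 0 ≤ W := (abs_nonneg _).trans (hu 0)
  have hNr : (0 : ℝ) < N := by exact_mod_cast hN
  set D : ℕ → ℝ := fun j => (H : ℝ)⁻¹ * ∑ t ∈ Finset.range H, b t * G t j with hD
  have h1 : ∀ j, (H : ℝ)⁻¹ * ∑ t ∈ Finset.range H, u j * (b t * G t j) = u j * D j := by
    intro j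
    simp only [hD]
    rw [← Finset.mul_sum]; ring
  have h2 : ∀ j, |u j * D j| ≤ θ / 2 * W ^ 2 + 1 / (2 * θ) * (D j) ^ 2 := by
    intro j
    have e1 : (u j) ^ 2 ≤ W ^ 2 := by
      rw [← sq_abs]; exact pow_le_pow_left₀ (abs_nonneg _) (hu j) 2
    have e2 : |u j * D j| ≤ θ / 2 * (u j) ^ 2 + 1 / (2 * θ) * (D j) ^ 2 := by
      rw [abs_mul]
      have e3 : 0 ≤ (θ * |u j| - |D j|) ^ 2 := sq_nonneg _
      have e4 : θ / 2 * (u j) ^ 2 + 1 / (2 * θ) * (D j) ^ 2 - |u j| * |D j|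
          = 1 / (2 * θ) * (θ * |u j| - |D j|) ^ 2 := by
        rw [← sq_abs (u j), ← sq_abs (D j)]
        field_simp
        ring
      have e5 : 0 ≤ 1 / (2 * θ) * (θ * |u j| - |D j|) ^ 2 := by positivity
      linarith
    have e6 : θ / 2 * (u j) ^ 2 ≤ θ / 2 * W ^ 2 := by gcongr
    linarith
  have h3 : (N : ℝ)⁻¹ * ∑ j ∈ Finset.range N, (D j) ^ 2
      ≤ W ^ 2 * (((H : ℝ)⁻¹) ^ 2 * ∑ t ∈ Finset.range H, ∑ t' ∈ Finset.range H,
          |(N : ℝ)⁻¹ * ∑ j ∈ Finset.range N, G t j * G t' j|) := by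
    have e1 : (N : ℝ)⁻¹ * ∑ j ∈ Finset.range N, (D j) ^ 2
        = ((H : ℝ)⁻¹) ^ 2 * ∑ t ∈ Finset.range H, ∑ t' ∈ Finset.range H,
          (b t * b t') * ((N : ℝ)⁻¹ * ∑ j ∈ Finset.range N, G t j * G t' j) := by
      have e2 : ∀ j, (D j) ^ 2 = ((H : ℝ)⁻¹) ^ 2 * ∑ t ∈ Finset.range H, ∑ t' ∈ Finset.range H,
          (b t * b t') * (G t j * G t' j) := by
        intro j
        simp only [hD]
        rw [mul_pow, sq (∑ t ∈ Finset.range H, b t * G t j), Finset.sum_mul_sum]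
        congr 1
        apply Finset.sum_congr rfl; intro t _
        apply Finset.sum_congr rfl; intro t' _
        ring
      simp only [e2]
      rw [← Finset.mul_sum, ← mul_assoc, mul_comm (N : ℝ)⁻¹, mul_assoc]
      congr 1
      rw [Finset.sum_comm, Finset.mul_sum]
      apply Finset.sum_congr rfl; intro t _
      rw [Finset.sum_comm, Finset.mul_sum]
      apply Finset.sum_congr rfl; intro t' _
      rw [Finset.mul_sum, Finset.mul_sum, Finset.mul_sum]
      apply Finset.sum_congr rfl; intro j _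
      ring
    rw [e1, ← mul_assoc, mul_comm (W ^ 2), mul_assoc]
    gcongr
    rw [Finset.mul_sum]
    apply Finset.sum_le_sum; intro t _
    rw [Finset.mul_sum]
    apply Finset.sum_le_sum; intro t' _
    refine (le_abs_self _).trans ?_
    rw [abs_mul, abs_mul, sq]
    gcongr
    · exact hb t
    · exact hb t'
  calc |(N : ℝ)⁻¹ * ∑ j ∈ Finset.range N, (H : ℝ)⁻¹ * ∑ t ∈ Finset.range H, u j * (b t * G t j)|
      = |(N : ℝ)⁻¹ * ∑ j ∈ Finset.range N, u j * D j| := by simp only [h1]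
    _ ≤ (N : ℝ)⁻¹ * ∑ j ∈ Finset.range N, |u j * D j| := by
        rw [abs_mul, abs_of_nonneg (show (0 : ℝ) ≤ (N : ℝ)⁻¹ by positivity)]
        gcongr
        exact Finset.abs_sum_le_sum_abs _ _
    _ ≤ (N : ℝ)⁻¹ * ∑ j ∈ Finset.range N, (θ / 2 * W ^ 2 + 1 / (2 * θ) * (D j) ^ 2) := by
        gcongr with j _
        exact h2 j
    _ = θ / 2 * W ^ 2 + 1 / (2 * θ) * ((N : ℝ)⁻¹ * ∑ j ∈ Finset.range N, (D j) ^ 2) := by
        rw [Finset.sum_add_distrib, Finset.sum_const, Finset.card_range, nsmul_eq_mul,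
          ← Finset.mul_sum]
        field_simp
    _ ≤ _ := by gcongr

section

variable {Ω : Type*} [MeasurableSpace Ω] {ν : Measure Ω} [IsProbabilityMeasure ν]

theorem integral_comp_mp {T : Ω → Ω} (hT : MeasurePreserving T ν ν) {F : Ω → ℝ}
    (hF : Measurable F) : ∫ x, F (T x) ∂ν = ∫ x, F x ∂ν := by
  rw [← integral_map hT.measurable.aemeasurable hF.aestronglyMeasurable, hT.map_eq]

theorem int_of_bdd {F : Ω → ℝ} (hF : Measurable F) (C : ℝ) (hC : ∀ x, |F x| ≤ C) :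
    Integrable F ν :=
  Integrable.of_bound hF.aestronglyMeasurable C (ae_of_all _ fun x => by
    rw [Real.norm_eq_abs]; exact hC x)

/-- Correlation average. -/
noncomputable def corr (B P : Ω → Ω) (g : Ω → ℝ) (N h : ℕ) (x : Ω) : ℝ :=
  (N : ℝ)⁻¹ * ∑ j ∈ Finset.range N, g (B^[h] (P^[j] x)) * g (P^[j] x)

theorem measurable_corr {B P : Ω → Ω} (hB : Measurable B) (hP : Measurable P) {g : Ω → ℝ}
    (hg : Measurable g) (N h : ℕ) : Measurable (corr B P g N h) := by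
  unfold corr
  apply Measurable.const_mul
  apply Finset.measurable_sum
  intro j _
  exact (hg.comp ((hB.iterate h).comp (hP.iterate j))).mul (hg.comp (hP.iterate j))

theorem abs_avg_le (N : ℕ) (a : ℕ → ℝ) (C : ℝ) (hC : 0 ≤ C) (ha : ∀ n, |a n| ≤ C) :
    |(N : ℝ)⁻¹ * ∑ j ∈ Finset.range N, a j| ≤ C := by
  rw [abs_mul, abs_of_nonneg (show (0 : ℝ) ≤ (N : ℝ)⁻¹ by positivity)]
  rcases Nat.eq_zero_or_pos N with h0 | h0
  · subst h0; simpa using hC
  have hNr : (0 : ℝ) < N := by exact_mod_cast h0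
  calc (N : ℝ)⁻¹ * |∑ j ∈ Finset.range N, a j|
      ≤ (N : ℝ)⁻¹ * ∑ j ∈ Finset.range N, |a j| := by
        gcongr; exact Finset.abs_sum_le_sum_abs _ _
    _ ≤ (N : ℝ)⁻¹ * ∑ j ∈ Finset.range N, C := by
        gcongr with j _; exact ha j
    _ = C := by
        rw [Finset.sum_const, Finset.card_range, nsmul_eq_mul]; field_simp

theorem abs_corr_le {B P : Ω → Ω} {g : Ω → ℝ}
    (hg1 : ∀ x, |g x| ≤ 1) (N h : ℕ) (x : Ω) : |corr B P g N h x| ≤ 1 := by
  apply abs_avg_le N _ 1 zero_le_one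
  intro j
  rw [abs_mul]
  exact mul_le_one₀ (hg1 _) (abs_nonneg _) (hg1 _)

theorem comm_iterate {B P : Ω → Ω} (hcomm : ∀ x, B (P x) = P (B x)) (m n : ℕ) (x : Ω) :
    B^[m] (P^[n] x) = P^[n] (B^[m] x) := by
  have h : Function.Commute B P := hcomm
  exact (h.iterate_iterate m n) x

/-- The integral of a correlation of two shifted copies. -/
theorem integral_corr_eq {B P : Ω → Ω} (hB : MeasurePreserving B ν ν) (hP : MeasurePreserving P ν ν)
    (hcomm : ∀ x, B (P x) = P (B x)) {g : Ω → ℝ} (hg : Measurable g)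
    (N s s' t t' : ℕ) :
    ∫ x, |(N : ℝ)⁻¹ * ∑ j ∈ Finset.range N,
      g (B^[s + t] (P^[s' + j] x)) * g (B^[s + t'] (P^[s' + j] x))| ∂ν
      = ∫ x, |corr B P g N (hd t t') x| ∂ν := by
  wlog hle : t' ≤ t generalizing t t' with H
  · have h1 := H t' t (by omega)
    have h2 : hd t t' = hd t' t := by unfold hd; omega
    rw [h2, ← h1]
    congr 1
    ext x
    congr 2
    apply Finset.sum_congr rfl
    intro j _
    ring
  have hh : hd t t' = t - t' := by unfold hd; omega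
  rw [hh]
  have hmp : MeasurePreserving (fun x => B^[s + t'] (P^[s'] x)) ν ν :=
    (hB.iterate (s + t')).comp (hP.iterate s')
  have h1 := integral_comp_mp hmp (F := fun x => |corr B P g N (t - t') x|)
    (measurable_corr hB.measurable hP.measurable hg N (t - t')).abs
  rw [← h1]
  congr 1
  ext x
  unfold corr
  congr 2
  apply Finset.sum_congr rfl
  intro j _
  have e1 : P^[j] (B^[s + t'] (P^[s'] x)) = B^[s + t'] (P^[s' + j] x) := by
    rw [← comm_iterate hcomm (s + t') j, ← Function.iterate_add_apply P j s', add_comm j s']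
  rw [e1, ← Function.iterate_add_apply B]
  congr 3
  have : t - t' + (s + t') = s + t := by omega
  rw [this]

/-- The contribution of the weakly mixing part is small. -/
theorem term3 {B P : Ω → Ω} (hB : MeasurePreserving B ν ν) (hP : MeasurePreserving P ν ν)
    (hcomm : ∀ x, B (P x) = P (B x)) {f g : Ω → ℝ} (hf : Measurable f) (hf1 : ∀ x, |f x| ≤ 1)
    (hg : Measurable g) (hg1 : ∀ x, |g x| ≤ 1) {S₁ S₂ : Ω → Ω} (hS₁ : Measurable S₁)
    (hS₂ : Measurable S₂) {w : ℕ → ℝ} {W : ℝ} (hw : ∀ n, |w n| ≤ W)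
    (h4 : Tendsto (fun H : ℕ => (H : ℝ)⁻¹ * ∑ h ∈ Finset.range H,
      |∫ x, g (B^[h] x) * g x ∂ν|) atTop (𝓝 0))
    (h5 : ∀ h : ℕ, ∀ ε > 0, ∃ N₀ : ℕ, ∀ N ≥ N₀,
      ∫ x, |corr B P g N h x - ∫ y, g (B^[h] y) * g y ∂ν| ∂ν ≤ ε)
    (ε : ℝ) (hε : 0 < ε) :
    ∃ H : ℕ, 0 < H ∧ ∃ L₀ : ℕ, ∀ L ≥ L₀, ∀ s s' : ℕ,
      ∫ x, |((H * L : ℕ) : ℝ)⁻¹ * ∑ j ∈ Finset.range (H * L), ((H * L : ℕ) : ℝ)⁻¹ *
        ∑ i ∈ Finset.range (H * L), (w (s + i) * w (s' + j)) * (f x * g (B^[s + i] (P^[s' + j] x))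
          * f (S₁^[s + i] x) * f (S₂^[s' + j] x))| ∂ν ≤ ε := by
  have hW : 0 ≤ W := (abs_nonneg _).trans (hw 0)
  -- parameters
  obtain ⟨θ, hθ, hθ1⟩ : ∃ θ > 0, θ / 2 * W ^ 2 ≤ ε / 2 := by
    refine ⟨ε / (W ^ 2 + 1), by positivity, ?_⟩
    rw [div_div, div_mul_eq_mul_div, div_le_div_iff₀ (by positivity) (by positivity)]
    nlinarith [sq_nonneg W]
  obtain ⟨ρ, hρ, hρ1⟩ : ∃ ρ > 0, 1 / (2 * θ) * (W ^ 2 * ρ) ≤ ε / 2 := by
    refine ⟨ε * θ / (W ^ 2 + 1), by positivity, ?_⟩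
    rw [mul_div_assoc', mul_div_assoc', div_le_div_iff₀ (by positivity) (by positivity)]
    have e1 : 1 / (2 * θ) * (W ^ 2 * (ε * θ)) = W ^ 2 * ε / 2 := by field_simp
    rw [e1]
    nlinarith [sq_nonneg W]
  obtain ⟨H, hH0, hH⟩ : ∃ H : ℕ, 0 < H ∧ (H : ℝ)⁻¹ * ∑ h ∈ Finset.range H,
      |∫ x, g (B^[h] x) * g x ∂ν| ≤ ρ / 4 := by
    have h1 := (h4.eventually (ge_mem_nhds (show (0 : ℝ) < ρ / 4 by positivity))).and
      (eventually_gt_atTop 0)
    obtain ⟨H, h2, h3⟩ := h1.exists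
    exact ⟨H, h3, h2⟩
  have hHr : (0 : ℝ) < H := by exact_mod_cast hH0
  choose N₀ hN₀ using fun h => h5 h (ρ / 4) (by positivity)
  refine ⟨H, hH0, (∑ h ∈ Finset.range H, N₀ h) + 1, fun L hL s s' => ?_⟩
  have hL0 : 0 < L := by omega
  have hLr : (0 : ℝ) < L := by exact_mod_cast hL0
  set N := H * L with hN
  have hN0 : 0 < N := Nat.mul_pos hH0 hL0
  have hNr : (0 : ℝ) < N := by exact_mod_cast hN0
  have hNbig : ∀ h ∈ Finset.range H, N₀ h ≤ N := by
    intro h hh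
    have h1 : N₀ h ≤ ∑ h ∈ Finset.range H, N₀ h :=
      Finset.single_le_sum (f := N₀) (fun _ _ => Nat.zero_le _) hh
    have h2 : L ≤ N := Nat.le_mul_of_pos_left L hH0
    omega
  -- bound for `κ`
  set κ : ℕ → ℝ := fun h => ∫ x, |corr B P g N h x| ∂ν with hκ
  have hκ0 : ∀ h, 0 ≤ κ h := fun h => integral_nonneg fun x => abs_nonneg _
  have hκle : ∀ h ∈ Finset.range H, κ h ≤ |∫ x, g (B^[h] x) * g x ∂ν| + ρ / 4 := by
    intro h hh
    have h1 := hN₀ h N (hNbig h hh)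
    have h2 : ∀ x, |corr B P g N h x| ≤ |∫ x, g (B^[h] x) * g x ∂ν|
        + |corr B P g N h x - ∫ x, g (B^[h] x) * g x ∂ν| := by
      intro x
      have := abs_add_le (∫ x, g (B^[h] x) * g x ∂ν) (corr B P g N h x - ∫ x, g (B^[h] x) * g x ∂ν)
      simpa using this
    have hm := measurable_corr hB.measurable hP.measurable hg N h
    have hint1 : Integrable (fun x => |corr B P g N h x|) ν :=
      int_of_bdd hm.abs 1 (fun x => by rw [abs_abs]; exact abs_corr_le hg1 N h x)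
    have hint2 : Integrable (fun x => |corr B P g N h x - ∫ x, g (B^[h] x) * g x ∂ν|) ν := by
      apply int_of_bdd (hm.sub_const _).abs (1 + |∫ x, g (B^[h] x) * g x ∂ν|)
      intro x
      rw [abs_abs]
      refine (abs_sub _ _).trans ?_
      gcongr
      exact abs_corr_le hg1 N h x
    calc κ h ≤ ∫ x, (|∫ x, g (B^[h] x) * g x ∂ν|
        + |corr B P g N h x - ∫ x, g (B^[h] x) * g x ∂ν|) ∂ν :=
          integral_mono hint1 ((integrable_const _).add hint2) h2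
      _ = |∫ x, g (B^[h] x) * g x ∂ν| + ∫ x, |corr B P g N h x - ∫ x, g (B^[h] x) * g x ∂ν| ∂ν := by
          rw [integral_add (integrable_const _) hint2]; simp
      _ ≤ _ := by gcongr
  have hκavg : (H : ℝ)⁻¹ * ∑ h ∈ Finset.range H, κ h ≤ ρ / 2 := by
    calc (H : ℝ)⁻¹ * ∑ h ∈ Finset.range H, κ h
        ≤ (H : ℝ)⁻¹ * ∑ h ∈ Finset.range H, (|∫ x, g (B^[h] x) * g x ∂ν| + ρ / 4) := by
          gcongr with h hh
          exact hκle h hh
      _ = (H : ℝ)⁻¹ * ∑ h ∈ Finset.range H, |∫ x, g (B^[h] x) * g x ∂ν| + ρ / 4 := by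
          rw [Finset.sum_add_distrib, Finset.sum_const, Finset.card_range, nsmul_eq_mul]
          field_simp
      _ ≤ ρ / 4 + ρ / 4 := by gcongr
      _ = ρ / 2 := by ring
  have hdouble : ((H : ℝ)⁻¹) ^ 2 * ∑ t ∈ Finset.range H, ∑ t' ∈ Finset.range H, κ (hd t t') ≤ ρ := by
    calc ((H : ℝ)⁻¹) ^ 2 * ∑ t ∈ Finset.range H, ∑ t' ∈ Finset.range H, κ (hd t t')
        ≤ ((H : ℝ)⁻¹) ^ 2 * ∑ t ∈ Finset.range H, 2 * ∑ h ∈ Finset.range H, κ h := by
          gcongr with t ht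
          exact sum_hd_le κ hκ0 H t (Finset.mem_range.1 ht)
      _ = 2 * ((H : ℝ)⁻¹ * ∑ h ∈ Finset.range H, κ h) := by
          rw [Finset.sum_const, Finset.card_range, nsmul_eq_mul]
          field_simp
      _ ≤ 2 * (ρ / 2) := by gcongr
      _ = ρ := by ring
  -- the pointwise bound
  set G : ℕ → ℕ → ℕ → Ω → ℝ := fun l t j x => g (B^[(s + H * l) + t] (P^[s' + j] x)) with hG
  set Γ : ℕ → ℕ → ℕ → Ω → ℝ := fun l t t' x =>
    |(N : ℝ)⁻¹ * ∑ j ∈ Finset.range N, G l t j x * G l t' j x| with hΓ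
  have hGm : ∀ l t j, Measurable (G l t j) := by
    intro l t j
    exact hg.comp ((hB.measurable.iterate _).comp (hP.measurable.iterate _))
  have hΓm : ∀ l t t', Measurable (Γ l t t') := by
    intro l t t'
    apply Measurable.abs
    apply Measurable.const_mul
    apply Finset.measurable_sum
    intro j _
    exact (hGm l t j).mul (hGm l t' j)
  have hΓ1 : ∀ l t t' x, |Γ l t t' x| ≤ 1 := by
    intro l t t' x
    simp only [hΓ, abs_abs]
    apply abs_avg_le N _ 1 zero_le_one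
    intro j
    rw [abs_mul]
    exact mul_le_one₀ (hg1 _) (abs_nonneg _) (hg1 _)
  have hΓint : ∀ l t t', ∫ x, Γ l t t' x ∂ν = κ (hd t t') := by
    intro l t t'
    exact integral_corr_eq hB hP hcomm hg N (s + H * l) s' t t'
  have hpt : ∀ x, |(N : ℝ)⁻¹ * ∑ j ∈ Finset.range N, (N : ℝ)⁻¹ *
        ∑ i ∈ Finset.range N, (w (s + i) * w (s' + j)) * (f x * g (B^[s + i] (P^[s' + j] x))
          * f (S₁^[s + i] x) * f (S₂^[s' + j] x))|
      ≤ (L : ℝ)⁻¹ * ∑ l ∈ Finset.range L, (θ / 2 * W ^ 2 + 1 / (2 * θ) * (W ^ 2 *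
        (((H : ℝ)⁻¹) ^ 2 * ∑ t ∈ Finset.range H, ∑ t' ∈ Finset.range H, Γ l t t' x))) := by
    intro x
    have e1 : (N : ℝ)⁻¹ * ∑ j ∈ Finset.range N, (N : ℝ)⁻¹ *
        ∑ i ∈ Finset.range N, (w (s + i) * w (s' + j)) * (f x * g (B^[s + i] (P^[s' + j] x))
          * f (S₁^[s + i] x) * f (S₂^[s' + j] x))
        = (L : ℝ)⁻¹ * ∑ l ∈ Finset.range L, ((N : ℝ)⁻¹ * ∑ j ∈ Finset.range N, (H : ℝ)⁻¹ *
          ∑ t ∈ Finset.range H, (w (s' + j) * f x * f (S₂^[s' + j] x)) *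
            ((w ((s + H * l) + t) * f (S₁^[(s + H * l) + t] x)) * G l t j x)) := by
      have e2 : ∀ j, ∑ i ∈ Finset.range N, (w (s + i) * w (s' + j)) *
          (f x * g (B^[s + i] (P^[s' + j] x)) * f (S₁^[s + i] x) * f (S₂^[s' + j] x))
          = ∑ l ∈ Finset.range L, ∑ t ∈ Finset.range H, (w (s' + j) * f x * f (S₂^[s' + j] x)) *
            ((w ((s + H * l) + t) * f (S₁^[(s + H * l) + t] x)) * G l t j x) := by
        intro j
        rw [hN, sum_range_block]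
        apply Finset.sum_congr rfl; intro l _
        apply Finset.sum_congr rfl; intro t _
        simp only [hG, add_assoc]
        ring
      simp only [e2]
      have e3 : (N : ℝ)⁻¹ = (L : ℝ)⁻¹ * (H : ℝ)⁻¹ := by
        rw [hN, Nat.cast_mul, mul_inv, mul_comm]
      simp only [Finset.mul_sum]
      rw [Finset.sum_comm]
      apply Finset.sum_congr rfl; intro l _
      apply Finset.sum_congr rfl; intro j _
      apply Finset.sum_congr rfl; intro t _
      rw [e3]; ring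
    rw [e1, abs_mul, abs_of_nonneg (show (0 : ℝ) ≤ (L : ℝ)⁻¹ by positivity)]
    gcongr
    refine (Finset.abs_sum_le_sum_abs _ _).trans ?_
    apply Finset.sum_le_sum
    intro l _
    apply block_ineq N H hN0 hH0 W θ hθ (fun j => w (s' + j) * f x * f (S₂^[s' + j] x))
      (fun t => w ((s + H * l) + t) * f (S₁^[(s + H * l) + t] x)) (fun t j => G l t j x)
    · intro j
      rw [abs_mul, abs_mul]
      have a1 := hw (s' + j)
      have a2 := hf1 x
      have a3 := hf1 (S₂^[s' + j] x)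
      calc |w (s' + j)| * |f x| * |f (S₂^[s' + j] x)| ≤ W * 1 * 1 := by gcongr
        _ = W := by ring
    · intro t
      rw [abs_mul]
      have a1 := hw ((s + H * l) + t)
      have a3 := hf1 (S₁^[(s + H * l) + t] x)
      calc |w ((s + H * l) + t)| * |f (S₁^[(s + H * l) + t] x)| ≤ W * 1 := by gcongr
        _ = W := by ring
  -- integrate
  have hΓi : ∀ l t t', Integrable (Γ l t t') ν := fun l t t' =>
    int_of_bdd (hΓm l t t') 1 (hΓ1 l t t')
  have hsumi : ∀ l, Integrable (fun x => ∑ t ∈ Finset.range H, ∑ t' ∈ Finset.range H,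
      Γ l t t' x) ν := fun l => integrable_finsetSum _ fun t _ =>
        integrable_finsetSum _ fun t' _ => hΓi l t t'
  have hli : ∀ l, Integrable (fun x => θ / 2 * W ^ 2 + 1 / (2 * θ) * (W ^ 2 *
        (((H : ℝ)⁻¹) ^ 2 * ∑ t ∈ Finset.range H, ∑ t' ∈ Finset.range H, Γ l t t' x))) ν :=
    fun l => (integrable_const _).add ((((hsumi l).const_mul _).const_mul _).const_mul _)
  have hR : Integrable (fun x => (L : ℝ)⁻¹ * ∑ l ∈ Finset.range L, (θ / 2 * W ^ 2 +
      1 / (2 * θ) * (W ^ 2 * (((H : ℝ)⁻¹) ^ 2 * ∑ t ∈ Finset.range H,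
        ∑ t' ∈ Finset.range H, Γ l t t' x)))) ν :=
    (integrable_finsetSum _ fun l _ => hli l).const_mul _
  have hRint : ∫ x, (L : ℝ)⁻¹ * ∑ l ∈ Finset.range L, (θ / 2 * W ^ 2 +
      1 / (2 * θ) * (W ^ 2 * (((H : ℝ)⁻¹) ^ 2 * ∑ t ∈ Finset.range H,
        ∑ t' ∈ Finset.range H, Γ l t t' x))) ∂ν ≤ ε := by
    rw [integral_const_mul, integral_finsetSum _ fun l _ => hli l]
    have e1 : ∀ l, ∫ x, (θ / 2 * W ^ 2 + 1 / (2 * θ) * (W ^ 2 *
        (((H : ℝ)⁻¹) ^ 2 * ∑ t ∈ Finset.range H, ∑ t' ∈ Finset.range H, Γ l t t' x))) ∂ν ≤ ε := by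
      intro l
      rw [integral_add (integrable_const _) ((((hsumi l).const_mul _).const_mul _).const_mul _),
        integral_const, probReal_univ, one_smul,
        integral_const_mul, integral_const_mul, integral_const_mul,
        integral_finsetSum _ fun t _ => integrable_finsetSum _ fun t' _ => hΓi l t t']
      have e2 : ∀ t, ∫ x, ∑ t' ∈ Finset.range H, Γ l t t' x ∂ν
          = ∑ t' ∈ Finset.range H, κ (hd t t') := by
        intro t
        rw [integral_finsetSum _ fun t' _ => hΓi l t t']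
        simp only [hΓint]
      simp only [e2]
      have e3 : 1 / (2 * θ) * (W ^ 2 * (((H : ℝ)⁻¹) ^ 2 * ∑ t ∈ Finset.range H,
          ∑ t' ∈ Finset.range H, κ (hd t t'))) ≤ 1 / (2 * θ) * (W ^ 2 * ρ) := by
        gcongr
      linarith
    calc (L : ℝ)⁻¹ * ∑ l ∈ Finset.range L, ∫ x, (θ / 2 * W ^ 2 + 1 / (2 * θ) * (W ^ 2 *
        (((H : ℝ)⁻¹) ^ 2 * ∑ t ∈ Finset.range H, ∑ t' ∈ Finset.range H, Γ l t t' x))) ∂ν
        ≤ (L : ℝ)⁻¹ * ∑ l ∈ Finset.range L, ε := by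
          gcongr with l _
          exact e1 l
      _ = ε := by
          rw [Finset.sum_const, Finset.card_range, nsmul_eq_mul]; field_simp
  refine le_trans (integral_mono_of_nonneg (ae_of_all _ fun x => abs_nonneg _) hR
    (ae_of_all _ hpt)) hRint

end

end Pool.Agent.MRec
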