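import Pool.Agent.MRec.Weights

set_option autoImplicit false
set_option linter.unusedSectionVars false
set_option linter.unusedSimpArgs false

open MeasureTheory Filter Topology
open scoped ENNReal

namespace Pool.Agent.MRec

variable {Ω : Type*} [MeasurableSpace Ω] {ν : Measure Ω} [IsProbabilityMeasure ν]
variable {Y : Type*} [MeasurableSpace Y] {μ : Measure Y} [IsProbabilityMeasure μ]

/-- Cauchy-Schwarz for averages. -/
theorem avg_abs_sq_le (a : ℕ → ℝ) (N : ℕ) :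
    ((N : ℝ)⁻¹ * ∑ n ∈ Finset.range N, |a n|) ^ 2 ≤ (N : ℝ)⁻¹ * ∑ n ∈ Finset.range N, (a n) ^ 2 := by
  rcases Nat.eq_zero_or_pos N with h0 | h0
  · subst h0; simp
  have hN : (0 : ℝ) < N := by exact_mod_cast h0
  have h1 := sq_sum_le_card_mul_sum_sq (s := Finset.range N) (f := fun n => |a n|)
  simp only [Finset.card_range, sq_abs] at h1
  rw [mul_pow]
  calc ((N : ℝ)⁻¹) ^ 2 * (∑ n ∈ Finset.range N, |a n|) ^ 2
      ≤ ((N : ℝ)⁻¹) ^ 2 * (N * ∑ n ∈ Finset.range N, (a n) ^ 2) := by gcongr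
    _ = (N : ℝ)⁻¹ * ∑ n ∈ Finset.range N, (a n) ^ 2 := by
        field_simp

theorem tendsto_avg_abs {a : ℕ → ℝ}
    (h : Tendsto (fun N : ℕ => (N : ℝ)⁻¹ * ∑ n ∈ Finset.range N, (a n) ^ 2) atTop (𝓝 0)) :
    Tendsto (fun N : ℕ => (N : ℝ)⁻¹ * ∑ n ∈ Finset.range N, |a n|) atTop (𝓝 0) := by
  have h1 : Tendsto (fun N : ℕ => ((N : ℝ)⁻¹ * ∑ n ∈ Finset.range N, |a n|) ^ 2) atTop (𝓝 0) :=
    squeeze_zero (fun N => by positivity) (fun N => avg_abs_sq_le a N) h
  have h2 := h1.sqrt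
  rw [Real.sqrt_zero] at h2
  refine h2.congr fun N => ?_
  rw [Real.sqrt_sq]
  have : 0 ≤ ∑ n ∈ Finset.range N, |a n| := Finset.sum_nonneg fun n _ => abs_nonneg _
  positivity

theorem Mop_zero {Q : Ω → Ω} (hQ : MeasurePreserving Q ν ν) {V : Set Ω}
    (hV : MeasurableSet V) {S : Y → Y} (hS : MeasurePreserving S μ μ) (g : Lp ℝ 2 μ)
    (hg : ∀ h : Lp ℝ 2 μ, Tendsto (fun N : ℕ => (N : ℝ)⁻¹ * ∑ n ∈ Finset.range N,
        (inner ℝ ((koop S hS)^[n] g) h) ^ 2) atTop (𝓝 0)) :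
    Mop ν hQ hV hS g = 0 := by
  apply ext_inner_right ℝ
  intro h
  rw [inner_zero_left]
  have ht := (wavg_tendsto0 hQ hV hS g).inner (tendsto_const_nhds (x := h)) (𝕜 := ℝ)
  have h2 : Tendsto (fun N => inner ℝ (wavg (wt ν Q V) hS N 0 g) h) atTop (𝓝 0) := by
    have h3 := (tendsto_avg_abs (hg h)).const_mul (1 / (ν.real V) ^ 2)
    rw [mul_zero] at h3
    refine squeeze_zero_norm (fun N => ?_) h3
    unfold wavg
    rw [real_inner_smul_left, sum_inner, Real.norm_eq_abs, abs_mul, abs_of_nonneg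
      (show (0 : ℝ) ≤ (N : ℝ)⁻¹ by positivity)]
    rw [mul_comm (1 / ν.real V ^ 2), mul_assoc, Finset.sum_mul]
    gcongr
    refine (Finset.abs_sum_le_sum_abs _ _).trans ?_
    gcongr with n _
    rw [real_inner_smul_left, abs_mul, abs_of_nonneg (wt_nonneg Q V _), zero_add, mul_comm]
    gcongr
    exact wt_le Q V n
  exact tendsto_nhds_unique ht h2

theorem Mop_near {Q : Ω → Ω} (hE : Ergodic Q ν) (hQ : MeasurePreserving Q ν ν) {V : Set Ω}
    (hV : MeasurableSet V) (hV0 : ν V ≠ 0) (c : Lp ℝ 2 ν) (ε : ℝ)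
    (hc : ∀ n : ℕ, ν (V ∩ Q^[n] ⁻¹' V) ≠ 0 → ‖(koop Q hQ)^[n] c - c‖ ≤ ε) :
    ‖Mop ν hQ hV hQ c - c‖ ≤ ε := by
  have h1 : Tendsto (fun N : ℕ => (N : ℝ)⁻¹ * ∑ n ∈ Finset.range N, wt ν Q V (0 + n))
      atTop (𝓝 1) := by
    rw [Metric.tendsto_atTop]
    intro ε hε
    obtain ⟨N₀, hN₀⟩ := wt_avg hE hQ hV hV0 (ε / 2) (by positivity)
    refine ⟨N₀, fun N hN => ?_⟩
    rw [Real.dist_eq]
    exact (hN₀ N hN 0).trans_lt (by linarith)
  have h2 : Tendsto (fun N : ℕ => ((N : ℝ)⁻¹ * ∑ n ∈ Finset.range N, wt ν Q V (0 + n)) * ε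
      + |((N : ℝ)⁻¹ * ∑ n ∈ Finset.range N, wt ν Q V (0 + n)) - 1| * ‖c‖) atTop (𝓝 ε) := by
    have h3 := (h1.mul_const ε).add (((h1.sub_const 1).abs).mul_const ‖c‖)
    simpa using h3
  have h4 : Tendsto (fun N => ‖wavg (wt ν Q V) hQ N 0 c - c‖) atTop
      (𝓝 ‖Mop ν hQ hV hQ c - c‖) := ((wavg_tendsto0 hQ hV hQ c).sub_const c).norm
  refine le_of_tendsto_of_tendsto' h4 h2 fun N => ?_
  have e1 : wavg (wt ν Q V) hQ N 0 c - c
      = (N : ℝ)⁻¹ • ∑ n ∈ Finset.range N, wt ν Q V (0 + n) • ((koop Q hQ)^[0 + n] c - c)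
        + (((N : ℝ)⁻¹ * ∑ n ∈ Finset.range N, wt ν Q V (0 + n)) - 1) • c := by
    unfold wavg
    simp only [smul_sub, Finset.sum_sub_distrib]
    rw [← Finset.sum_smul, sub_smul, one_smul, smul_smul]
    abel
  rw [e1]
  refine (norm_add_le _ _).trans ?_
  rw [norm_smul, norm_smul, Real.norm_eq_abs, Real.norm_eq_abs, abs_of_nonneg
      (show (0 : ℝ) ≤ (N : ℝ)⁻¹ by positivity)]
  refine add_le_add ?_ le_rfl
  rw [mul_assoc, Finset.sum_mul]
  gcongr
  refine (norm_sum_le _ _).trans ?_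
  gcongr with n _
  rw [norm_smul, Real.norm_eq_abs, abs_of_nonneg (wt_nonneg Q V _)]
  by_cases hn : ν (V ∩ Q^[0 + n] ⁻¹' V) = 0
  · have : wt ν Q V (0 + n) = 0 := by
      unfold wt
      rw [measureReal_def, hn]
      simp
    rw [this]; simp
  · gcongr
    · exact wt_nonneg Q V _
    · exact hc _ hn

/-- The package of functions for an ergodic map. -/
theorem exists_pack {Q Q' : Ω → Ω} (hE : Ergodic Q ν) (hQ : MeasurePreserving Q ν ν)
    (hQ' : MeasurePreserving Q' ν ν) (hQQ : ∀ x, Q' (Q x) = x)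
    {A : Set Ω} (hA : MeasurableSet A) :
    ∃ c g : Ω → ℝ, Measurable c ∧ Measurable g ∧ (∀ x, 0 ≤ c x) ∧ (∀ x, c x ≤ 1) ∧
      (∀ x, |g x| ≤ 1) ∧ (∀ x, A.indicator (fun _ => (1 : ℝ)) x = c x + g x) ∧
      Tendsto (fun N : ℕ => (N : ℝ)⁻¹ * ∑ n ∈ Finset.range N,
        (∫ x, g (Q^[n] x) * g x ∂ν) ^ 2) atTop (𝓝 0) ∧
      (∀ ε > 0, ∃ V : Set Ω, MeasurableSet V ∧ ν V ≠ 0 ∧ ∀ n : ℕ, ν (V ∩ Q^[n] ⁻¹' V) ≠ 0 →
        ∫ x, |c (Q^[n] x) - c x| ∂ν ≤ ε) ∧
      (∀ δ > 0, ν.real {x | x ∈ A ∧ c x ≤ δ / 2} ≤ δ) := by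
  obtain ⟨cL, gL, hfcg, hgL, hcL⟩ := exists_decomp hE hQ hQ' hQQ hA
  -- `Mop` of the indicator is close to `cL`
  have key : ∀ ε > 0, ∃ (V : Set Ω) (hV : MeasurableSet V), ν V ≠ 0 ∧
      ‖Mop ν hQ hV hQ (ind ν hA) - cL‖ ≤ ε := by
    intro ε hε
    obtain ⟨V, hV, hV0, h1⟩ := hcL ε hε
    refine ⟨V, hV, hV0, ?_⟩
    rw [hfcg, Mop_add, Mop_zero hQ hV hQ gL hgL, add_zero]
    exact Mop_near hE hQ hV hV0 cL ε h1
  obtain ⟨c, hcm, hc0, hc1, hcc⟩ := exists_rep cL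
    (by
      intro B hB
      by_contra hcon
      push Not at hcon
      obtain ⟨V, hV, hV0, h1⟩ := key (-(inner ℝ cL (ind ν hB)) / 2) (by linarith)
      have h2 := inner_Mop_nonneg (μ := ν) hQ hV hQ hA hB
      have h3 : inner ℝ (Mop ν hQ hV hQ (ind ν hA)) (ind ν hB)
          = inner ℝ cL (ind ν hB) + inner ℝ (Mop ν hQ hV hQ (ind ν hA) - cL) (ind ν hB) := by
        rw [inner_sub_left]; ring
      have h4 : inner ℝ (Mop ν hQ hV hQ (ind ν hA) - cL) (ind ν hB)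
          ≤ (-(inner ℝ cL (ind ν hB)) / 2) * 1 := by
        refine (real_inner_le_norm _ _).trans ?_
        exact mul_le_mul h1 (norm_ind_le hB) (norm_nonneg _) (by linarith)
      linarith)
    (by
      intro B hB
      by_contra hcon
      push Not at hcon
      obtain ⟨V, hV, hV0, h1⟩ := key ((inner ℝ cL (ind ν hB) - ν.real B) / 2) (by linarith)
      have h2 := inner_Mop_le (μ := ν) hE hQ hV hV0 hQ hA hB
      have h3 : inner ℝ cL (ind ν hB) = inner ℝ (Mop ν hQ hV hQ (ind ν hA)) (ind ν hB)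
          + inner ℝ (cL - Mop ν hQ hV hQ (ind ν hA)) (ind ν hB) := by
        rw [inner_sub_left]; ring
      have h4 : inner ℝ (cL - Mop ν hQ hV hQ (ind ν hA)) (ind ν hB)
          ≤ ((inner ℝ cL (ind ν hB) - ν.real B) / 2) * 1 := by
        refine (real_inner_le_norm _ _).trans ?_
        have h5 : ‖cL - Mop ν hQ hV hQ (ind ν hA)‖ ≤ (inner ℝ cL (ind ν hB) - ν.real B) / 2 := by
          rw [norm_sub_rev]; exact h1
        exact mul_le_mul h5 (norm_ind_le hB) (norm_nonneg _) (by linarith)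
      linarith)
  have hindm : Measurable (A.indicator (fun _ => (1 : ℝ))) := measurable_const.indicator hA
  set g : Ω → ℝ := fun x => A.indicator (fun _ => (1 : ℝ)) x - c x with hg
  have hgm : Measurable g := hindm.sub hcm
  have hgg : gL =ᵐ[ν] g := by
    have h1 : gL = ind ν hA - cL := by rw [hfcg]; abel
    rw [h1]
    filter_upwards [Lp.coeFn_sub (ind ν hA) cL, coeFn_ind (ν := ν) hA, hcc] with x h2 h3 h4
    rw [h2, Pi.sub_apply, h3, h4]
  refine ⟨c, g, hcm, hgm, hc0, hc1, ?_, ?_, ?_, ?_, ?_⟩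
  · intro x
    simp only [hg]
    have h0 := hc0 x
    have h1 := hc1 x
    by_cases hx : x ∈ A
    · simp only [hx, Set.indicator_of_mem]
      rw [abs_le]; constructor <;> linarith
    · simp only [hx, not_false_eq_true, Set.indicator_of_notMem]
      rw [abs_le]; constructor <;> linarith
  · intro x; simp only [hg]; ring
  · refine (hgL gL).congr fun N => ?_
    congr 1
    apply Finset.sum_congr rfl
    intro n _
    congr 1
    rw [L2.inner_def]
    apply integral_congr_ae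
    filter_upwards [coeFn_koop_iterate Q hQ gL n hgg, hgg] with x h1 h2
    rw [h1, h2]
    simp [mul_comm]
  · intro ε hε
    obtain ⟨V, hV, hV0, h1⟩ := hcL ε hε
    refine ⟨V, hV, hV0, fun n hn => ?_⟩
    refine le_trans ?_ (h1 n hn)
    apply integral_abs_le_norm
    filter_upwards [Lp.coeFn_sub ((koop Q hQ)^[n] cL) cL, coeFn_koop_iterate Q hQ cL n hcc, hcc]
      with x h2 h3 h4
    rw [h2, Pi.sub_apply, h3, h4]
    rfl
  · intro δ hδ
    by_contra hcon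
    push Not at hcon
    set B : Set Ω := {x | x ∈ A ∧ c x ≤ δ / 2} with hB
    set θ := ν.real B - δ with hθ
    have hθ0 : 0 < θ := by rw [hθ]; linarith
    obtain ⟨V, hV, hV0, h1⟩ := key (δ / 2 * (θ / 2)) (by positivity)
    obtain ⟨M, hMm, hM0, hM1, hmM, hMδ, -⟩ := exists_limit hE hQ hV hV0 hQ hA
    have h2 : ∫ x, |M x - c x| ∂ν ≤ δ / 2 * (θ / 2) := by
      refine le_trans ?_ h1
      apply integral_abs_le_norm
      filter_upwards [Lp.coeFn_sub (Mop ν hQ hV hQ (ind ν hA)) cL, hmM, hcc] with x h2 h3 h4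
      rw [h2, Pi.sub_apply, h3, h4]
    have h3 : B ⊆ {x | x ∈ A ∧ M x ≤ δ} ∪ {x | δ / 2 ≤ |M x - c x|} := by
      intro x hx
      by_cases hMx : M x ≤ δ
      · exact Or.inl ⟨hx.1, hMx⟩
      · right
        push Not at hMx
        have : c x ≤ δ / 2 := hx.2
        show δ / 2 ≤ |M x - c x|
        rw [abs_of_nonneg (by linarith)]
        linarith
    have hint : Integrable (fun x => |M x - c x|) ν := by
      apply Integrable.of_bound ((hMm.sub hcm).abs).aestronglyMeasurable 1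
      refine ae_of_all _ fun x => ?_
      simp only [Real.norm_eq_abs, abs_abs, Pi.sub_apply]
      rw [abs_le]
      constructor
      · linarith [hM0 x, hc1 x]
      · linarith [hM1 x, hc0 x]
    have h4 : (δ / 2) * ν.real {x | δ / 2 ≤ |M x - c x|} ≤ ∫ x, |M x - c x| ∂ν :=
      mul_meas_ge_le_integral_of_nonneg (ae_of_all _ fun x => abs_nonneg _) hint (δ / 2)
    have h5 : ν.real {x | δ / 2 ≤ |M x - c x|} ≤ θ / 2 := by
      have h6 := h4.trans h2
      exact le_of_mul_le_mul_left h6 (by positivity)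
    have h7 : ν.real B ≤ ν.real {x | x ∈ A ∧ M x ≤ δ} + ν.real {x | δ / 2 ≤ |M x - c x|} :=
      (measureReal_mono h3).trans (measureReal_union_le _ _)
    have h8 := hMδ δ hδ.le
    linarith

end Pool.Agent.MRec
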