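import Mathlib

set_option autoImplicit false
set_option linter.unusedSectionVars false
set_option linter.unusedSimpArgs false

open MeasureTheory Filter Topology
open scoped ENNReal

namespace Pool.Agent.MRec

section Hilbert

variable {H : Type*} [NormedAddCommGroup H] [InnerProductSpace ℝ H] [CompleteSpace H]

/-- Averages over the first `N` iterates. -/
noncomputable def avg (W : H →ₗᵢ[ℝ] H) (N : ℕ) (x : H) : H :=
  (N : ℝ)⁻¹ • ∑ n ∈ Finset.range N, W^[n] x

/-- The projection on the invariant vectors. -/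
noncomputable def proj (W : H →ₗᵢ[ℝ] H) : H →L[ℝ] H :=
  (W.toContinuousLinearMap.eqLocus (1 : H →L[ℝ] H)).starProjection

theorem tendsto_avg (W : H →ₗᵢ[ℝ] H) (x : H) :
    Tendsto (fun N => avg W N x) atTop (𝓝 (proj W x)) := by
  have h := ContinuousLinearMap.tendsto_birkhoffAverage_orthogonalProjection
    (W.toContinuousLinearMap) W.norm_toContinuousLinearMap_le x
  refine h.congr ?_
  intro N
  simp only [avg, birkhoffAverage, birkhoffSum, id]
  rfl

theorem proj_fixed (W : H →ₗᵢ[ℝ] H) (x : H) : W (proj W x) = proj W x := by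
  have : proj W x ∈ (W.toContinuousLinearMap.eqLocus (1 : H →L[ℝ] H)) :=
    Submodule.starProjection_apply_mem _ x
  simpa using this

theorem inner_proj_of_fixed (W : H →ₗᵢ[ℝ] H) (x y : H) (hy : W y = y) :
    inner ℝ (proj W x) y = inner ℝ x y := by
  have hy' : y ∈ (W.toContinuousLinearMap.eqLocus (1 : H →L[ℝ] H)) := by
    simpa using hy
  have := Submodule.inner_starProjection_left_eq_right
    (W.toContinuousLinearMap.eqLocus (1 : H →L[ℝ] H)) x y
  rw [proj, this, Submodule.starProjection_eq_self_iff.2 hy']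

theorem inner_proj_self (W : H →ₗᵢ[ℝ] H) (x : H) :
    inner ℝ (proj W x) x = ‖proj W x‖ ^ 2 := by
  rw [← real_inner_self_eq_norm_sq, real_inner_comm x,
    ← inner_proj_of_fixed W x _ (proj_fixed W x)]

theorem iterate_add_apply' (W : H →ₗᵢ[ℝ] H) (n : ℕ) (x y : H) :
    W^[n] (x + y) = W^[n] x + W^[n] y := by
  induction n generalizing x y with
  | zero => rfl
  | succ n ih => simp only [Function.iterate_succ, Function.comp, map_add, ih]

theorem iterate_sub_apply' (W : H →ₗᵢ[ℝ] H) (n : ℕ) (x y : H) :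
    W^[n] (x - y) = W^[n] x - W^[n] y := by
  induction n generalizing x y with
  | zero => rfl
  | succ n ih => simp only [Function.iterate_succ, Function.comp, map_sub, ih]

theorem iterate_smul_apply' (W : H →ₗᵢ[ℝ] H) (n : ℕ) (c : ℝ) (x : H) :
    W^[n] (c • x) = c • W^[n] x := by
  induction n generalizing x with
  | zero => rfl
  | succ n ih => simp only [Function.iterate_succ, Function.comp, map_smul, ih]

theorem iterate_norm (W : H →ₗᵢ[ℝ] H) (n : ℕ) (x : H) : ‖W^[n] x‖ = ‖x‖ := by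
  induction n generalizing x with
  | zero => rfl
  | succ n ih => simp only [Function.iterate_succ, Function.comp, ih, W.norm_map]

theorem iterate_fixed (W : H →ₗᵢ[ℝ] H) (n : ℕ) (x : H) (hx : W x = x) : W^[n] x = x :=
  Function.iterate_fixed hx n

theorem iterate_sum_apply' (W : H →ₗᵢ[ℝ] H) (n : ℕ) {ι : Type*} (s : Finset ι) (v : ι → H) :
    W^[n] (∑ i ∈ s, v i) = ∑ i ∈ s, W^[n] (v i) := by
  classical
  induction s using Finset.induction_on with
  | empty =>
    simp only [Finset.sum_empty]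
    exact iterate_fixed W n 0 (map_zero W)
  | insert a s ha ih => rw [Finset.sum_insert ha, Finset.sum_insert ha, iterate_add_apply', ih]

/-- The windowed averages converge uniformly in the start of the window. -/
theorem norm_window_sub (W : H →ₗᵢ[ℝ] H) (N s : ℕ) (x : H) :
    ‖(N : ℝ)⁻¹ • ∑ n ∈ Finset.range N, W^[s + n] x - proj W x‖ = ‖avg W N x - proj W x‖ := by
  have h1 : (N : ℝ)⁻¹ • ∑ n ∈ Finset.range N, W^[s + n] x - proj W x
      = W^[s] (avg W N x - proj W x) := by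
    rw [iterate_sub_apply', iterate_fixed W s _ (proj_fixed W x), avg, iterate_smul_apply',
      iterate_sum_apply']
    congr 2
    apply Finset.sum_congr rfl
    intro n _
    rw [Function.iterate_add_apply]
  rw [h1, iterate_norm]

end Hilbert

section Tensor

variable {X Y : Type*} [MeasurableSpace X] [MeasurableSpace Y] {ν : Measure X} {μ : Measure Y}
  [IsProbabilityMeasure ν] [IsProbabilityMeasure μ]

theorem memLp_tens (a : Lp ℝ 2 ν) (b : Lp ℝ 2 μ) :
    MemLp (fun p : X × Y => a p.1 * b p.2) 2 (ν.prod μ) := by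
  have ha : AEStronglyMeasurable (fun p : X × Y => a p.1) (ν.prod μ) :=
    (Lp.aestronglyMeasurable a).comp_fst
  have hb : AEStronglyMeasurable (fun p : X × Y => b p.2) (ν.prod μ) :=
    (Lp.aestronglyMeasurable b).comp_snd
  have hab : AEStronglyMeasurable (fun p : X × Y => a p.1 * b p.2) (ν.prod μ) := ha.mul hb
  rw [memLp_two_iff_integrable_sq hab]
  have h := ((Lp.memLp a).integrable_sq).mul_prod ((Lp.memLp b).integrable_sq)
  refine h.congr (ae_of_all _ fun p => ?_)
  simp only []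
  ring

/-- The tensor product of two `L²` functions. -/
noncomputable def tens (a : Lp ℝ 2 ν) (b : Lp ℝ 2 μ) : Lp ℝ 2 (ν.prod μ) :=
  (memLp_tens a b).toLp _

theorem coeFn_tens (a : Lp ℝ 2 ν) (b : Lp ℝ 2 μ) :
    tens a b =ᵐ[ν.prod μ] fun p : X × Y => a p.1 * b p.2 :=
  MemLp.coeFn_toLp _

theorem tens_congr_ae {a : Lp ℝ 2 ν} {b : Lp ℝ 2 μ} {f : X → ℝ} {g : Y → ℝ}
    (ha : a =ᵐ[ν] f) (hb : b =ᵐ[μ] g) :
    tens a b =ᵐ[ν.prod μ] fun p : X × Y => f p.1 * g p.2 := by
  have h1 : (fun p : X × Y => a p.1) =ᵐ[ν.prod μ] fun p => f p.1 :=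
    Measure.quasiMeasurePreserving_fst.ae_eq_comp ha
  have h2 : (fun p : X × Y => b p.2) =ᵐ[ν.prod μ] fun p => g p.2 :=
    Measure.quasiMeasurePreserving_snd.ae_eq_comp hb
  filter_upwards [coeFn_tens a b, h1, h2] with p h h1 h2
  rw [h, h1, h2]

theorem inner_tens (a c : Lp ℝ 2 ν) (b d : Lp ℝ 2 μ) :
    inner ℝ (tens a b) (tens c d) = inner ℝ a c * inner ℝ b d := by
  rw [L2.inner_def, L2.inner_def, L2.inner_def, ← integral_prod_mul]
  apply integral_congr_ae
  filter_upwards [coeFn_tens a b, coeFn_tens c d] with p h1 h2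
  rw [h1, h2]
  simp only [RCLike.inner_apply, conj_trivial]
  ring

theorem norm_tens (a : Lp ℝ 2 ν) (b : Lp ℝ 2 μ) : ‖tens a b‖ = ‖a‖ * ‖b‖ := by
  have h := inner_tens a a b b
  rw [real_inner_self_eq_norm_sq, real_inner_self_eq_norm_sq, real_inner_self_eq_norm_sq] at h
  have h2 : ‖tens a b‖ ^ 2 = (‖a‖ * ‖b‖) ^ 2 := by rw [h]; ring
  exact (sq_eq_sq₀ (norm_nonneg _) (by positivity)).1 h2

theorem tens_add_left (a a' : Lp ℝ 2 ν) (b : Lp ℝ 2 μ) :
    tens (a + a') b = tens a b + tens a' b := by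
  apply Lp.ext
  filter_upwards [tens_congr_ae (Lp.coeFn_add a a') (EventuallyEq.refl _ b), coeFn_tens a b,
    coeFn_tens a' b, Lp.coeFn_add (tens a b) (tens a' b)] with p h1 h2 h3 h4
  rw [h1, h4, Pi.add_apply, Pi.add_apply, h2, h3]
  ring

theorem tens_smul_left (r : ℝ) (a : Lp ℝ 2 ν) (b : Lp ℝ 2 μ) :
    tens (r • a) b = r • tens a b := by
  apply Lp.ext
  filter_upwards [tens_congr_ae (Lp.coeFn_smul r a) (EventuallyEq.refl _ b), coeFn_tens a b,
    Lp.coeFn_smul r (tens a b)] with p h1 h2 h3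
  rw [h1, h3, Pi.smul_apply, Pi.smul_apply, h2]
  simp only [smul_eq_mul]
  ring

/-- `a ↦ a ⊗ b`. -/
noncomputable def tensL (b : Lp ℝ 2 μ) : Lp ℝ 2 ν →L[ℝ] Lp ℝ 2 (ν.prod μ) :=
  LinearMap.mkContinuous
    { toFun := fun a => tens a b
      map_add' := fun a a' => tens_add_left a a' b
      map_smul' := fun r a => tens_smul_left r a b } ‖b‖
    (fun a => by
      show ‖tens a b‖ ≤ ‖b‖ * ‖a‖
      rw [norm_tens, mul_comm])

theorem tensL_apply (a : Lp ℝ 2 ν) (b : Lp ℝ 2 μ) : tensL b a = tens a b := rfl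

/-- Integration against `b` in the second variable. -/
noncomputable def slice (b : Lp ℝ 2 μ) : Lp ℝ 2 (ν.prod μ) →L[ℝ] Lp ℝ 2 ν :=
  ContinuousLinearMap.adjoint (tensL b)

theorem inner_slice (b : Lp ℝ 2 μ) (m : Lp ℝ 2 (ν.prod μ)) (a : Lp ℝ 2 ν) :
    inner ℝ (slice b m) a = inner ℝ m (tens a b) := by
  rw [slice, ContinuousLinearMap.adjoint_inner_left, tensL_apply]

theorem norm_slice_le (b : Lp ℝ 2 μ) (m : Lp ℝ 2 (ν.prod μ)) :
    ‖slice b m‖ ≤ ‖b‖ * ‖m‖ := by
  have h := inner_slice b m (slice b m)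
  rw [real_inner_self_eq_norm_sq] at h
  have h2 : inner ℝ m (tens (slice b m) b) ≤ ‖m‖ * (‖slice b m‖ * ‖b‖) := by
    refine (real_inner_le_norm _ _).trans ?_
    rw [norm_tens]
  rcases eq_or_lt_of_le (norm_nonneg (slice b m)) with h0 | h0
  · rw [← h0]; positivity
  · have h3 : ‖slice b m‖ * ‖slice b m‖ ≤ ‖slice b m‖ * (‖b‖ * ‖m‖) := by nlinarith
    exact le_of_mul_le_mul_left h3 h0

theorem slice_tens (a : Lp ℝ 2 ν) (b b' : Lp ℝ 2 μ) :
    slice b (tens a b') = (inner ℝ b' b : ℝ) • a := by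
  apply ext_inner_right ℝ
  intro c
  rw [inner_slice, inner_tens, real_inner_smul_left, mul_comm]

/-- The Koopman operator. -/
noncomputable def koop (T : X → X) (hT : MeasurePreserving T ν ν) : Lp ℝ 2 ν →ₗᵢ[ℝ] Lp ℝ 2 ν :=
  Lp.compMeasurePreservingₗᵢ ℝ T hT

theorem coeFn_koop (T : X → X) (hT : MeasurePreserving T ν ν) (a : Lp ℝ 2 ν) :
    koop T hT a =ᵐ[ν] a ∘ T :=
  Lp.coeFn_compMeasurePreserving a hT

theorem koop_congr_ae {T : X → X} {hT : MeasurePreserving T ν ν} {a : Lp ℝ 2 ν} {f : X → ℝ}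
    (ha : a =ᵐ[ν] f) : koop T hT a =ᵐ[ν] f ∘ T :=
  (coeFn_koop T hT a).trans (hT.quasiMeasurePreserving.ae_eq_comp ha)

theorem coeFn_koop_iterate (T : X → X) (hT : MeasurePreserving T ν ν) (a : Lp ℝ 2 ν) (n : ℕ)
    {f : X → ℝ} (ha : a =ᵐ[ν] f) :
    (koop T hT)^[n] a =ᵐ[ν] f ∘ T^[n] := by
  induction n generalizing f a with
  | zero => simpa using ha
  | succ n ih =>
    rw [Function.iterate_succ_apply]
    have h2 := ih (koop T hT a) (koop_congr_ae (hT := hT) ha)
    rw [Function.iterate_succ']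
    exact h2

theorem koop_tens (T : X → X) (hT : MeasurePreserving T ν ν) (S : Y → Y)
    (hS : MeasurePreserving S μ μ) (a : Lp ℝ 2 ν) (b : Lp ℝ 2 μ) :
    koop (Prod.map T S) (hT.prod hS) (tens a b) = tens (koop T hT a) (koop S hS b) := by
  apply Lp.ext
  filter_upwards [koop_congr_ae (hT := hT.prod hS) (coeFn_tens a b),
    tens_congr_ae (coeFn_koop T hT a) (coeFn_koop S hS b)] with p h1 h2
  rw [h1, h2]
  rfl

theorem koop_tens_iterate (T : X → X) (hT : MeasurePreserving T ν ν) (S : Y → Y)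
    (hS : MeasurePreserving S μ μ) (a : Lp ℝ 2 ν) (b : Lp ℝ 2 μ) (n : ℕ) :
    (koop (Prod.map T S) (hT.prod hS))^[n] (tens a b)
      = tens ((koop T hT)^[n] a) ((koop S hS)^[n] b) := by
  induction n generalizing a b with
  | zero => rfl
  | succ n ih =>
    rw [Function.iterate_succ_apply, Function.iterate_succ_apply, Function.iterate_succ_apply,
      koop_tens]
    exact ih _ _

theorem norm_sq_eq_integral (m : Lp ℝ 2 ν) : ‖m‖ ^ 2 = ∫ x, (m x) ^ 2 ∂ν := by
  rw [← real_inner_self_eq_norm_sq, L2.inner_def]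
  apply integral_congr_ae
  exact ae_of_all _ fun x => by simp [real_inner_self_eq_norm_sq]

theorem ofReal_norm_sq (m : Lp ℝ 2 ν) :
    ENNReal.ofReal (‖m‖ ^ 2) = ∫⁻ x, ENNReal.ofReal ((m x) ^ 2) ∂ν := by
  rw [norm_sq_eq_integral, ofReal_integral_eq_lintegral_ofReal]
  · exact (Lp.memLp m).integrable_sq
  · exact ae_of_all _ fun x => by positivity

theorem integral_abs_le_norm (m : Lp ℝ 2 ν) {f : X → ℝ} (hf : m =ᵐ[ν] f) :
    ∫ x, |f x| ∂ν ≤ ‖m‖ := by
  have hm : MemLp f 2 ν := (memLp_congr_ae hf).1 (Lp.memLp m)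
  have h0 : ∫ x, |f x| ∂ν = ∫ x, |m x| ∂ν :=
    integral_congr_ae (by filter_upwards [hf] with x hx; rw [hx])
  rw [h0]
  have h1 : (∫ x, |m x| ∂ν) ^ 2 ≤ ‖m‖ ^ 2 := by
    rw [norm_sq_eq_integral]
    have h2 : ∫ x, (|m x| - ∫ y, |m y| ∂ν) ^ 2 ∂ν ≥ 0 :=
      integral_nonneg fun x => by positivity
    have hi : Integrable (fun x => |m x|) ν := ((Lp.memLp m).integrable (by norm_num)).abs
    have hi2 : Integrable (fun x => (m x) ^ 2) ν := (Lp.memLp m).integrable_sq
    have h3 : ∫ x, (|m x| - ∫ y, |m y| ∂ν) ^ 2 ∂ν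
        = ∫ x, ((m x) ^ 2 - 2 * (∫ y, |m y| ∂ν) * |m x| + (∫ y, |m y| ∂ν) ^ 2) ∂ν := by
      apply integral_congr_ae
      refine ae_of_all _ fun x => ?_
      have : |m x| ^ 2 = (m x) ^ 2 := sq_abs _
      simp only []
      nlinarith [this]
    rw [h3, integral_add, integral_sub, integral_const_mul, integral_const] at h2
    · simp at h2
      nlinarith [h2]
    · exact hi2
    · exact hi.const_mul _
    · exact hi2.sub (hi.const_mul _)
    · exact integrable_const _
  exact abs_le_of_sq_le_sq' h1 (norm_nonneg _) |>.2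

end Tensor

end Pool.Agent.MRec
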