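import Pool.Agent.MRec.Decomp

set_option autoImplicit false
set_option linter.unusedSectionVars false
set_option linter.unusedSimpArgs false

open MeasureTheory Filter Topology
open scoped ENNReal

namespace Pool.Agent.MRec

variable {Ω : Type*} [MeasurableSpace Ω] {ν : Measure Ω} [IsProbabilityMeasure ν]
variable {Y : Type*} [MeasurableSpace Y] {μ : Measure Y} [IsProbabilityMeasure μ]

theorem inner_iterate_ind {S : Y → Y} (hS : MeasurePreserving S μ μ) {A B : Set Y}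
    (hA : MeasurableSet A) (hB : MeasurableSet B) (n : ℕ) :
    inner ℝ ((koop S hS)^[n] (ind μ hA)) (ind μ hB) = μ.real (B ∩ S^[n] ⁻¹' A) := by
  rw [L2.inner_def]
  have h1 : ∫ a, inner ℝ (((koop S hS)^[n] (ind μ hA) : Lp ℝ 2 μ) a) ((ind μ hB : Lp ℝ 2 μ) a) ∂μ
      = ∫ a, (B ∩ S^[n] ⁻¹' A).indicator (fun _ => (1 : ℝ)) a ∂μ := by
    apply integral_congr_ae
    filter_upwards [coeFn_koop_iterate S hS (ind μ hA) n (coeFn_ind hA), coeFn_ind (ν := μ) hB]
      with y h1 h2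
    rw [h1, h2]
    simp only [Function.comp, Set.indicator_apply, Set.mem_inter_iff, Set.mem_preimage]
    by_cases hb : y ∈ B <;> by_cases ha : S^[n] y ∈ A <;> simp [ha, hb]
  rw [h1, integral_indicator (hB.inter ((hS.measurable.iterate n) hA))]
  simp

theorem inner_ind_ind {A B : Set Y} (hA : MeasurableSet A) (hB : MeasurableSet B) :
    inner ℝ (ind μ hA) (ind μ hB) = μ.real (B ∩ A) := by
  have := inner_iterate_ind (MeasurePreserving.id μ) hA hB 0
  simpa using this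

theorem inner_ind_right (m : Lp ℝ 2 μ) {B : Set Y} (hB : MeasurableSet B) :
    inner ℝ m (ind μ hB) = ∫ y in B, m y ∂μ := by
  rw [L2.inner_def, ← integral_indicator hB]
  apply integral_congr_ae
  filter_upwards [coeFn_ind (ν := μ) hB] with y h2
  rw [h2]
  by_cases hb : y ∈ B <;> simp [hb]

theorem norm_ind_univ : ‖ind μ MeasurableSet.univ‖ = 1 := by
  have h := inner_ind_ind (μ := μ) MeasurableSet.univ MeasurableSet.univ
  rw [real_inner_self_eq_norm_sq] at h
  have h1 : ‖ind μ MeasurableSet.univ‖ ^ 2 = 1 := by rw [h]; simp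
  nlinarith [norm_nonneg (ind μ MeasurableSet.univ), h1]

theorem norm_ind_le {B : Set Y} (hB : MeasurableSet B) : ‖ind μ hB‖ ≤ 1 := by
  have h := inner_ind_ind (μ := μ) hB hB
  rw [real_inner_self_eq_norm_sq, Set.inter_self] at h
  have h2 : μ.real B ≤ 1 := measureReal_le_one
  nlinarith [norm_nonneg (ind μ hB)]

theorem koop_univ {S : Y → Y} (hS : MeasurePreserving S μ μ) :
    koop S hS (ind μ MeasurableSet.univ) = ind μ MeasurableSet.univ := by
  apply Lp.ext
  filter_upwards [koop_congr_ae (hT := hS) (coeFn_ind (ν := μ) MeasurableSet.univ),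
    coeFn_ind (ν := μ) MeasurableSet.univ] with y h1 h2
  rw [h1, h2]
  simp

/-- For ergodic maps the invariant projection is the integral. -/
theorem inner_proj_ergodic {Q : Ω → Ω} (hE : Ergodic Q ν) (hQ : MeasurePreserving Q ν ν)
    (h b : Lp ℝ 2 ν) :
    inner ℝ (proj (koop Q hQ) h) b
      = inner ℝ h (ind ν MeasurableSet.univ) * inner ℝ b (ind ν MeasurableSet.univ) := by
  set p := proj (koop Q hQ) h with hp
  have hfix : koop Q hQ p = p := proj_fixed _ _
  have h1 : (⇑p) ∘ Q =ᵐ[ν] p := by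
    have := coeFn_koop Q hQ p
    rw [hfix] at this
    exact this.symm
  obtain ⟨c, hc⟩ := hE.ae_eq_const_of_ae_eq_comp_ae (Lp.aestronglyMeasurable p) h1
  have hpc : p = c • ind ν MeasurableSet.univ := by
    apply Lp.ext
    filter_upwards [hc, Lp.coeFn_smul c (ind ν MeasurableSet.univ),
      coeFn_ind (ν := ν) MeasurableSet.univ] with y h1 h2 h3
    rw [h1, h2, Pi.smul_apply, h3]
    simp
  have hcv : c = inner ℝ h (ind ν MeasurableSet.univ) := by
    rw [← inner_proj_of_fixed (koop Q hQ) h _ (koop_univ hQ), ← hp, hpc, real_inner_smul_left,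
      real_inner_self_eq_norm_sq, norm_ind_univ]
    ring
  rw [hpc, real_inner_smul_left, hcv, real_inner_comm b]

/-- The weights. -/
noncomputable def wt (ν : Measure Ω) (Q : Ω → Ω) (V : Set Ω) (n : ℕ) : ℝ :=
  ν.real (V ∩ Q^[n] ⁻¹' V) / (ν.real V) ^ 2

theorem wt_nonneg (Q : Ω → Ω) (V : Set Ω) (n : ℕ) : 0 ≤ wt ν Q V n := by
  unfold wt; positivity

theorem wt_le (Q : Ω → Ω) (V : Set Ω) (n : ℕ) : wt ν Q V n ≤ 1 / (ν.real V) ^ 2 := by
  unfold wt
  gcongr
  exact measureReal_le_one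

theorem wt_avg {Q : Ω → Ω} (hE : Ergodic Q ν) (hQ : MeasurePreserving Q ν ν) {V : Set Ω}
    (hV : MeasurableSet V) (hV0 : ν V ≠ 0) (ε : ℝ) (hε : 0 < ε) :
    ∃ N₀ : ℕ, ∀ N ≥ N₀, ∀ s : ℕ,
      |(N : ℝ)⁻¹ * ∑ n ∈ Finset.range N, wt ν Q V (s + n) - 1| ≤ ε := by
  have hv : 0 < ν.real V := by
    rw [measureReal_def]
    exact ENNReal.toReal_pos hV0 (measure_ne_top ν V)
  set U := koop Q hQ with hU
  have ht := tendsto_avg U (ind ν hV)
  have ht2 : Tendsto (fun N => ‖avg U N (ind ν hV) - proj U (ind ν hV)‖) atTop (𝓝 0) := by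
    have := (ht.sub_const (proj U (ind ν hV))).norm
    simpa using this
  have hpos : 0 < ε * (ν.real V) ^ 2 := by positivity
  obtain ⟨N₀, hN₀⟩ := (ht2.eventually (ge_mem_nhds hpos)).exists_forall_of_atTop
  refine ⟨N₀, fun N hN s => ?_⟩
  have h1 := hN₀ N hN
  have h2 : inner ℝ (proj U (ind ν hV)) (ind ν hV) = (ν.real V) ^ 2 := by
    rw [hU, inner_proj_ergodic hE hQ, inner_ind_ind]
    simp [sq]
  have h3 : (N : ℝ)⁻¹ * ∑ n ∈ Finset.range N, wt ν Q V (s + n) - 1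
      = (inner ℝ ((N : ℝ)⁻¹ • ∑ n ∈ Finset.range N, U^[s + n] (ind ν hV) - proj U (ind ν hV))
          (ind ν hV)) / (ν.real V) ^ 2 := by
    rw [inner_sub_left, h2, sub_div, div_self (by positivity)]
    congr 1
    rw [real_inner_smul_left, sum_inner, mul_div_assoc, Finset.sum_div]
    congr 1
    apply Finset.sum_congr rfl
    intro n _
    rw [hU, inner_iterate_ind hQ hV hV]
    rfl
  rw [h3, abs_div, abs_of_pos (show (0 : ℝ) < (ν.real V) ^ 2 by positivity),
    div_le_iff₀ (by positivity)]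
  refine (abs_real_inner_le_norm _ _).trans ?_
  rw [norm_window_sub]
  calc ‖avg U N (ind ν hV) - proj U (ind ν hV)‖ * ‖ind ν hV‖
      ≤ (ε * (ν.real V) ^ 2) * 1 := by
        gcongr
        exact norm_ind_le hV
    _ = ε * (ν.real V) ^ 2 := by ring

/-- The weighted limit operator. -/
noncomputable def Mop (ν : Measure Ω) [IsProbabilityMeasure ν] {Q : Ω → Ω}
    (hQ : MeasurePreserving Q ν ν) {V : Set Ω} (hV : MeasurableSet V)
    {S : Y → Y} (hS : MeasurePreserving S μ μ) (h : Lp ℝ 2 μ) : Lp ℝ 2 μ :=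
  ((ν.real V) ^ 2)⁻¹ • slice (ind ν hV)
    (proj (koop (Prod.map S Q) (hS.prod hQ)) (tens h (ind ν hV)))

theorem Mop_add {Q : Ω → Ω} (hQ : MeasurePreserving Q ν ν) {V : Set Ω} (hV : MeasurableSet V)
    {S : Y → Y} (hS : MeasurePreserving S μ μ) (h h' : Lp ℝ 2 μ) :
    Mop ν hQ hV hS (h + h') = Mop ν hQ hV hS h + Mop ν hQ hV hS h' := by
  unfold Mop
  rw [tens_add_left, map_add, map_add, smul_add]

/-- Weighted window average in `L²`. -/
noncomputable def wavg (w : ℕ → ℝ) {S : Y → Y} (hS : MeasurePreserving S μ μ) (N s : ℕ)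
    (h : Lp ℝ 2 μ) : Lp ℝ 2 μ :=
  (N : ℝ)⁻¹ • ∑ n ∈ Finset.range N, w (s + n) • (koop S hS)^[s + n] h

theorem wavg_eq {Q : Ω → Ω} (hQ : MeasurePreserving Q ν ν) {V : Set Ω} (hV : MeasurableSet V)
    {S : Y → Y} (hS : MeasurePreserving S μ μ) (h : Lp ℝ 2 μ) (N s : ℕ) :
    wavg (wt ν Q V) hS N s h = ((ν.real V) ^ 2)⁻¹ • slice (ind ν hV)
      ((N : ℝ)⁻¹ • ∑ n ∈ Finset.range N,
        (koop (Prod.map S Q) (hS.prod hQ))^[s + n] (tens h (ind ν hV))) := by
  unfold wavg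
  rw [map_smul, map_sum, smul_comm]
  congr 1
  rw [Finset.smul_sum]
  apply Finset.sum_congr rfl
  intro n _
  rw [koop_tens_iterate S hS Q hQ, slice_tens, inner_iterate_ind hQ hV hV, smul_smul]
  congr 1
  unfold wt
  rw [div_eq_inv_mul]

theorem norm_wavg_sub_le {Q : Ω → Ω} (hQ : MeasurePreserving Q ν ν) {V : Set Ω}
    (hV : MeasurableSet V) {S : Y → Y} (hS : MeasurePreserving S μ μ) (h : Lp ℝ 2 μ)
    (N s : ℕ) :
    ‖wavg (wt ν Q V) hS N s h - Mop ν hQ hV hS h‖ ≤ ((ν.real V) ^ 2)⁻¹ *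
      ‖avg (koop (Prod.map S Q) (hS.prod hQ)) N (tens h (ind ν hV))
        - proj (koop (Prod.map S Q) (hS.prod hQ)) (tens h (ind ν hV))‖ := by
  rw [wavg_eq hQ hV hS, Mop, ← smul_sub, ← map_sub, norm_smul, Real.norm_eq_abs,
    abs_of_nonneg (by positivity)]
  gcongr
  refine (norm_slice_le _ _).trans ?_
  rw [norm_window_sub]
  have := norm_ind_le (μ := ν) hV
  calc ‖ind ν hV‖ * ‖avg (koop (Prod.map S Q) (hS.prod hQ)) N (tens h (ind ν hV))
        - proj (koop (Prod.map S Q) (hS.prod hQ)) (tens h (ind ν hV))‖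
      ≤ 1 * ‖avg (koop (Prod.map S Q) (hS.prod hQ)) N (tens h (ind ν hV))
        - proj (koop (Prod.map S Q) (hS.prod hQ)) (tens h (ind ν hV))‖ := by gcongr
    _ = _ := one_mul _

theorem wavg_tendsto {Q : Ω → Ω} (hQ : MeasurePreserving Q ν ν) {V : Set Ω}
    (hV : MeasurableSet V) {S : Y → Y} (hS : MeasurePreserving S μ μ) (h : Lp ℝ 2 μ)
    (ε : ℝ) (hε : 0 < ε) :
    ∃ N₀ : ℕ, ∀ N ≥ N₀, ∀ s : ℕ, ‖wavg (wt ν Q V) hS N s h - Mop ν hQ hV hS h‖ ≤ ε := by
  have ht := tendsto_avg (koop (Prod.map S Q) (hS.prod hQ)) (tens h (ind ν hV))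
  have ht2 : Tendsto (fun N => ((ν.real V) ^ 2)⁻¹ *
      ‖avg (koop (Prod.map S Q) (hS.prod hQ)) N (tens h (ind ν hV))
        - proj (koop (Prod.map S Q) (hS.prod hQ)) (tens h (ind ν hV))‖) atTop (𝓝 0) := by
    have := ((ht.sub_const (proj (koop (Prod.map S Q) (hS.prod hQ))
      (tens h (ind ν hV)))).norm).const_mul (((ν.real V) ^ 2)⁻¹)
    simpa using this
  obtain ⟨N₀, hN₀⟩ := (ht2.eventually (ge_mem_nhds hε)).exists_forall_of_atTop
  exact ⟨N₀, fun N hN s => (norm_wavg_sub_le hQ hV hS h N s).trans (hN₀ N hN)⟩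

theorem wavg_tendsto0 {Q : Ω → Ω} (hQ : MeasurePreserving Q ν ν) {V : Set Ω}
    (hV : MeasurableSet V) {S : Y → Y} (hS : MeasurePreserving S μ μ) (h : Lp ℝ 2 μ) :
    Tendsto (fun N => wavg (wt ν Q V) hS N 0 h) atTop (𝓝 (Mop ν hQ hV hS h)) := by
  rw [Metric.tendsto_atTop]
  intro ε hε
  obtain ⟨N₀, hN₀⟩ := wavg_tendsto hQ hV hS h (ε / 2) (by positivity)
  refine ⟨N₀, fun N hN => ?_⟩
  rw [dist_eq_norm]
  exact (hN₀ N hN 0).trans_lt (by linarith)

theorem inner_wavg_ind (w : ℕ → ℝ) {S : Y → Y} (hS : MeasurePreserving S μ μ) (N s : ℕ)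
    {A B : Set Y} (hA : MeasurableSet A) (hB : MeasurableSet B) :
    inner ℝ (wavg w hS N s (ind μ hA)) (ind μ hB)
      = (N : ℝ)⁻¹ * ∑ n ∈ Finset.range N, w (s + n) * μ.real (B ∩ S^[s + n] ⁻¹' A) := by
  unfold wavg
  rw [real_inner_smul_left, sum_inner]
  congr 1
  apply Finset.sum_congr rfl
  intro n _
  rw [real_inner_smul_left, inner_iterate_ind hS hA hB]

theorem inner_Mop_nonneg {Q : Ω → Ω} (hQ : MeasurePreserving Q ν ν) {V : Set Ω}
    (hV : MeasurableSet V) {S : Y → Y} (hS : MeasurePreserving S μ μ) {A B : Set Y}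
    (hA : MeasurableSet A) (hB : MeasurableSet B) :
    0 ≤ inner ℝ (Mop ν hQ hV hS (ind μ hA)) (ind μ hB) := by
  have ht := (wavg_tendsto0 hQ hV hS (ind μ hA)).inner (tendsto_const_nhds (x := ind μ hB))
    (𝕜 := ℝ)
  refine ge_of_tendsto' ht fun N => ?_
  rw [inner_wavg_ind]
  have : ∀ n, 0 ≤ wt ν Q V n := fun n => wt_nonneg Q V n
  apply mul_nonneg (by positivity)
  apply Finset.sum_nonneg
  intro n _
  exact mul_nonneg (this _) (by positivity)

theorem inner_Mop_le {Q : Ω → Ω} (hE : Ergodic Q ν) (hQ : MeasurePreserving Q ν ν) {V : Set Ω}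
    (hV : MeasurableSet V) (hV0 : ν V ≠ 0) {S : Y → Y} (hS : MeasurePreserving S μ μ) {A B : Set Y}
    (hA : MeasurableSet A) (hB : MeasurableSet B) :
    inner ℝ (Mop ν hQ hV hS (ind μ hA)) (ind μ hB) ≤ μ.real B := by
  have ht := (wavg_tendsto0 hQ hV hS (ind μ hA)).inner (tendsto_const_nhds (x := ind μ hB))
    (𝕜 := ℝ)
  have ht2 : Tendsto (fun N : ℕ => ((N : ℝ)⁻¹ * ∑ n ∈ Finset.range N, wt ν Q V (0 + n))
      * μ.real B) atTop (𝓝 (1 * μ.real B)) := by
    apply Tendsto.mul_const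
    rw [Metric.tendsto_atTop]
    intro ε hε
    obtain ⟨N₀, hN₀⟩ := wt_avg hE hQ hV hV0 (ε / 2) (by positivity)
    refine ⟨N₀, fun N hN => ?_⟩
    rw [Real.dist_eq]
    exact (hN₀ N hN 0).trans_lt (by linarith)
  rw [one_mul] at ht2
  refine le_of_tendsto_of_tendsto' ht ht2 fun N => ?_
  rw [inner_wavg_ind, mul_assoc, Finset.sum_mul]
  gcongr with n _
  · exact wt_nonneg Q V _
  · exact measure_ne_top _ _
  · exact Set.inter_subset_left

theorem inner_Mop_self {Q : Ω → Ω} (hQ : MeasurePreserving Q ν ν) {V : Set Ω}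
    (hV : MeasurableSet V) (hV0 : ν V ≠ 0) {S : Y → Y} (hS : MeasurePreserving S μ μ) {B : Set Y}
    (hB : MeasurableSet B) :
    (μ.real B) ^ 2 ≤ inner ℝ (Mop ν hQ hV hS (ind μ hB)) (ind μ hB) := by
  have hv : 0 < ν.real V := by
    rw [measureReal_def]
    exact ENNReal.toReal_pos hV0 (measure_ne_top ν V)
  unfold Mop
  rw [real_inner_smul_left, inner_slice, inner_proj_self]
  set W := koop (Prod.map S Q) (hS.prod hQ) with hW
  set o : Lp ℝ 2 (μ.prod ν) := tens (ind μ MeasurableSet.univ) (ind ν MeasurableSet.univ) with ho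
  have hfix : W o = o := by
    rw [hW, ho, koop_tens S hS Q hQ, koop_univ, koop_univ]
  have h1 : inner ℝ (proj W (tens (ind μ hB) (ind ν hV))) o = μ.real B * ν.real V := by
    rw [inner_proj_of_fixed W _ _ hfix, ho, inner_tens, inner_ind_ind, inner_ind_ind]
    simp
  have h2 : μ.real B * ν.real V ≤ ‖proj W (tens (ind μ hB) (ind ν hV))‖ := by
    rw [← h1]
    refine (real_inner_le_norm _ _).trans ?_
    rw [ho, norm_tens, norm_ind_univ, norm_ind_univ]
    simp
  have h3 : (μ.real B * ν.real V) ^ 2 ≤ ‖proj W (tens (ind μ hB) (ind ν hV))‖ ^ 2 := by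
    gcongr
  rw [← div_eq_inv_mul, le_div_iff₀ (by positivity)]
  linarith [h3, mul_pow (μ.real B) (ν.real V) 2]

theorem inner_Mop_mono {Q : Ω → Ω} (hQ : MeasurePreserving Q ν ν) {V : Set Ω}
    (hV : MeasurableSet V) {S : Y → Y} (hS : MeasurePreserving S μ μ) {A B : Set Y}
    (hA : MeasurableSet A) (hB : MeasurableSet B) (hBA : B ⊆ A) :
    inner ℝ (Mop ν hQ hV hS (ind μ hB)) (ind μ hB)
      ≤ inner ℝ (Mop ν hQ hV hS (ind μ hA)) (ind μ hB) := by
  have ht := (wavg_tendsto0 hQ hV hS (ind μ hA)).inner (tendsto_const_nhds (x := ind μ hB))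
    (𝕜 := ℝ)
  have ht' := (wavg_tendsto0 hQ hV hS (ind μ hB)).inner (tendsto_const_nhds (x := ind μ hB))
    (𝕜 := ℝ)
  refine le_of_tendsto_of_tendsto' ht' ht fun N => ?_
  rw [inner_wavg_ind, inner_wavg_ind]
  gcongr with n _
  · exact wt_nonneg Q V _
  · exact measure_ne_top _ _

/-- An element of `L²` whose integrals over all sets `B` are in `[0, μ B]` has a representative
with values in `[0,1]`. -/
theorem exists_rep (m : Lp ℝ 2 μ) (h0 : ∀ B (hB : MeasurableSet B), 0 ≤ inner ℝ m (ind μ hB))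
    (h1 : ∀ B (hB : MeasurableSet B), inner ℝ m (ind μ hB) ≤ μ.real B) :
    ∃ M : Y → ℝ, Measurable M ∧ (∀ y, 0 ≤ M y) ∧ (∀ y, M y ≤ 1) ∧ m =ᵐ[μ] M := by
  have hi : Integrable m μ := (Lp.memLp m).integrable (by norm_num)
  have hm : Measurable (fun y => m y) := (Lp.stronglyMeasurable m).measurable
  have a0 : 0 ≤ᵐ[μ] m := by
    apply ae_nonneg_of_forall_setIntegral_nonneg hi
    intro s hs _
    rw [← inner_ind_right m hs]
    exact h0 s hs
  have a1 : m ≤ᵐ[μ] fun _ => (1 : ℝ) := by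
    apply ae_le_of_forall_setIntegral_le hi (integrable_const 1)
    intro s hs _
    rw [← inner_ind_right m hs]
    refine (h1 s hs).trans ?_
    simp
  refine ⟨fun y => max 0 (min 1 (m y)), ?_, ?_, ?_, ?_⟩
  · exact measurable_const.max (measurable_const.min hm)
  · intro y; exact le_max_left _ _
  · intro y; exact max_le (by norm_num) (min_le_left _ _)
  · filter_upwards [a0, a1] with y h2 h3
    have h2' : 0 ≤ m y := h2
    rw [min_eq_right h3, max_eq_right h2']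

theorem coeFn_wavg (w : ℕ → ℝ) {S : Y → Y} (hS : MeasurePreserving S μ μ) (N s : ℕ)
    {A : Set Y} (hA : MeasurableSet A) :
    wavg w hS N s (ind μ hA) =ᵐ[μ] fun y => (N : ℝ)⁻¹ * ∑ n ∈ Finset.range N,
      w (s + n) * A.indicator (fun _ => (1 : ℝ)) (S^[s + n] y) := by
  unfold wavg
  refine (Lp.coeFn_smul _ _).trans ?_
  have h2 : ∀ N : ℕ, (∑ n ∈ Finset.range N, w (s + n) • (koop S hS)^[s + n] (ind μ hA) :
      Lp ℝ 2 μ) =ᵐ[μ] fun y => ∑ n ∈ Finset.range N,
        w (s + n) * A.indicator (fun _ => (1 : ℝ)) (S^[s + n] y) := by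
    intro N
    induction N with
    | zero =>
      simp only [Finset.range_zero, Finset.sum_empty]
      exact Lp.coeFn_zero ℝ 2 μ
    | succ N ih =>
      rw [Finset.sum_range_succ]
      refine (Lp.coeFn_add _ _).trans ?_
      filter_upwards [ih, Lp.coeFn_smul (w (s + N)) ((koop S hS)^[s + N] (ind μ hA)),
        coeFn_koop_iterate S hS (ind μ hA) (s + N) (coeFn_ind hA)] with p hp hp' hp''
      rw [Pi.add_apply, hp, hp', Pi.smul_apply, hp'', Finset.sum_range_succ]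
      rfl
  filter_upwards [h2 N] with p hp
  rw [Pi.smul_apply, hp]
  rfl

/-- The weighted averages of an indicator converge to a `[0,1]`-valued function that is rarely
small on the set. -/
theorem exists_limit {Q : Ω → Ω} (hE : Ergodic Q ν) (hQ : MeasurePreserving Q ν ν) {V : Set Ω}
    (hV : MeasurableSet V) (hV0 : ν V ≠ 0) {S : Y → Y} (hS : MeasurePreserving S μ μ) {A : Set Y}
    (hA : MeasurableSet A) :
    ∃ M : Y → ℝ, Measurable M ∧ (∀ y, 0 ≤ M y) ∧ (∀ y, M y ≤ 1) ∧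
      Mop ν hQ hV hS (ind μ hA) =ᵐ[μ] M ∧
      (∀ δ : ℝ, 0 ≤ δ → μ.real {y | y ∈ A ∧ M y ≤ δ} ≤ δ) ∧
      (∀ ε > 0, ∃ N₀ : ℕ, ∀ N ≥ N₀, ∀ s : ℕ, ∫ y, |(N : ℝ)⁻¹ * ∑ n ∈ Finset.range N,
        wt ν Q V (s + n) * A.indicator (fun _ => (1 : ℝ)) (S^[s + n] y) - M y| ∂μ ≤ ε) := by
  set m := Mop ν hQ hV hS (ind μ hA) with hm
  obtain ⟨M, hMm, hM0, hM1, hmM⟩ := exists_rep m
    (fun B hB => inner_Mop_nonneg hQ hV hS hA hB)
    (fun B hB => inner_Mop_le hE hQ hV hV0 hS hA hB)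
  refine ⟨M, hMm, hM0, hM1, hmM, ?_, ?_⟩
  · intro δ hδ
    set B : Set Y := {y | y ∈ A ∧ M y ≤ δ} with hB
    have hBm : MeasurableSet B := hA.inter (measurableSet_le hMm measurable_const)
    have h1 := inner_Mop_self (μ := μ) hQ hV hV0 hS hBm
    have h2 := inner_Mop_mono hQ hV hS hA hBm (fun y hy => hy.1)
    have h3 : inner ℝ (Mop ν hQ hV hS (ind μ hA)) (ind μ hBm) ≤ δ * μ.real B := by
      rw [inner_ind_right]
      have e1 : ∫ y in B, (Mop ν hQ hV hS (ind μ hA) : Lp ℝ 2 μ) y ∂μ = ∫ y in B, M y ∂μ := by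
        apply setIntegral_congr_ae hBm
        filter_upwards [hmM] with y hy _
        exact hy
      rw [e1]
      have e2 : ∫ y in B, M y ∂μ ≤ ∫ y in B, δ ∂μ := by
        apply setIntegral_mono_on
        · have : Integrable M μ := Integrable.of_bound hMm.aestronglyMeasurable 1
            (ae_of_all _ fun y => by rw [Real.norm_eq_abs, abs_of_nonneg (hM0 y)]; exact hM1 y)
          exact this.integrableOn
        · exact integrableOn_const (measure_ne_top _ _)
        · exact hBm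
        · intro y hy; exact hy.2
      refine e2.trans ?_
      simp [mul_comm]
    have h4 : (μ.real B) ^ 2 ≤ δ * μ.real B := h1.trans (h2.trans h3)
    rcases eq_or_lt_of_le (show 0 ≤ μ.real B by positivity) with h0 | h0
    · rw [← h0]; exact hδ
    · nlinarith
  · intro ε hε
    obtain ⟨N₀, hN₀⟩ := wavg_tendsto hQ hV hS (ind μ hA) ε hε
    refine ⟨N₀, fun N hN s => ?_⟩
    refine le_trans ?_ (hN₀ N hN s)
    apply integral_abs_le_norm
    filter_upwards [Lp.coeFn_sub (wavg (wt ν Q V) hS N s (ind μ hA)) (Mop ν hQ hV hS (ind μ hA)),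
      coeFn_wavg (wt ν Q V) hS N s hA, hmM] with y h1 h2 h3
    rw [h1, Pi.sub_apply, h2, ← h3]

end Pool.Agent.MRec
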